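import Mathlib

/-!
# Group algebras whose augmentation ideal is contained in the Jacobson radical
-/

namespace MP331e4f

open MonoidAlgebra

/-- all elements `g - 1` lie in the Jacobson radical of `K[G]` -/
def AugRad (K G : Type*) [Field K] [Group G] : Prop :=
  ∀ g : G, (of K G g - 1 : MonoidAlgebra K G) ∈ Ring.jacobson (MonoidAlgebra K G)

theorem mem_rad_iff {R : Type*} [Ring R] {x : R} :
    x ∈ Ring.jacobson R ↔ ∀ y, ∃ z, z * y * x + z = 1 := by
  rw [← Ideal.jacobson_bot, Ideal.mem_jacobson_iff]
  simp only [Ideal.mem_bot, sub_eq_zero]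

section restrict

variable {K : Type*} [Field K] {G : Type*} [Group G]

theorem comap_mul (P : Subgroup G) (x : MonoidAlgebra K G) (w : MonoidAlgebra K P) :
    comapDomain (Subtype.val : P → G) Subtype.val_injective
        (x * mapDomainRingHom K P.subtype w) =
      comapDomain (Subtype.val : P → G) Subtype.val_injective x * w := by
  induction w using MonoidAlgebra.induction_linear with
  | zero => simp
  | add f g hf hg => simp only [map_add, mul_add, comapDomain_add, hf, hg]
  | single b s =>
    induction x using MonoidAlgebra.induction_linear with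
    | zero => simp
    | add f g hf hg => simp only [add_mul, comapDomain_add, hf, hg]
    | single a r =>
      have h1 : mapDomainRingHom K P.subtype (single b s) = single (b : G) s := by
        simp [mapDomainRingHom]
      rw [h1, single_mul_single]
      by_cases ha : a ∈ P
      · obtain ⟨a, rfl⟩ : ∃ c : P, (c : G) = a := ⟨⟨a, ha⟩, rfl⟩
        have e1 : ((a : G) * (b : G)) = ((a * b : P) : G) := rfl
        rw [e1, comapDomain_single_map, comapDomain_single_map, single_mul_single]
      · have hab : a * (b : G) ∉ Set.range (Subtype.val : P → G) := by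
          rintro ⟨c, hc⟩
          apply ha
          have : a = (c : G) * (b : G)⁻¹ := by rw [hc]; group
          rw [this]
          exact P.mul_mem c.2 (P.inv_mem b.2)
        have ha' : a ∉ Set.range (Subtype.val : P → G) := by
          rintro ⟨c, hc⟩
          exact ha (hc ▸ c.2)
        rw [comapDomain_single_of_not_mem_range hab, comapDomain_single_of_not_mem_range ha',
          zero_mul]

theorem AugRad.restrict (h : AugRad K G) (P : Subgroup G) : AugRad K P := by
  intro g
  rw [mem_rad_iff]
  intro y
  obtain ⟨z, hz⟩ := mem_rad_iff.1 (h (g : G)) (mapDomainRingHom K P.subtype y)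
  refine ⟨comapDomain (Subtype.val : P → G) Subtype.val_injective z, ?_⟩
  have e1 : (of K G (g : G) - 1 : MonoidAlgebra K G) =
      mapDomainRingHom K P.subtype (of K P g - 1) := by
    rw [map_sub, map_one]
    simp [mapDomainRingHom, of]
  have h1 := congrArg (comapDomain (Subtype.val : P → G) Subtype.val_injective) hz
  rw [e1, mul_assoc, ← map_mul, comapDomain_add, comap_mul] at h1
  rw [mul_assoc, h1]
  have e2 : (1 : MonoidAlgebra K G) = single ((1 : P) : G) 1 := rfl
  rw [e2, comapDomain_single_map]
  rfl

end restrict

section aug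

variable (K : Type*) [Field K] (G : Type*) [Group G]

/-- the augmentation map -/
noncomputable def aug : MonoidAlgebra K G →ₐ[K] K := MonoidAlgebra.lift K K G 1

variable {K G}

@[simp] theorem aug_single (g : G) (a : K) : aug K G (single g a) = a := by
  simp [aug]

theorem aug_of (g : G) : aug K G (of K G g) = 1 := by
  simp [aug]

/-- an element of augmentation zero is a combination of the `g - 1` -/
theorem mem_span_of_aug {x : MonoidAlgebra K G} (hx : aug K G x = 0) :
    x ∈ Ideal.span (Set.range (fun g : G => of K G g - 1)) := by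
  have key : ∀ x : MonoidAlgebra K G,
      x - single 1 (aug K G x) ∈ Ideal.span (Set.range (fun g : G => of K G g - 1)) := by
    intro x
    induction x using MonoidAlgebra.induction_linear with
    | zero => simp
    | add f g hf hg =>
      have : f + g - single 1 (aug K G (f + g)) =
          (f - single 1 (aug K G f)) + (g - single 1 (aug K G g)) := by
        rw [map_add, single_add]; abel
      rw [this]
      exact add_mem hf hg
    | single a r =>
      have : (single a r : MonoidAlgebra K G) - single 1 (aug K G (single a r)) =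
          single 1 r * (of K G a - 1) := by
        simp [mul_sub, of, single_mul_single]
      rw [this]
      exact Ideal.mul_mem_left _ _ (Ideal.subset_span ⟨a, rfl⟩)
  have := key x
  rwa [hx, single_zero, sub_zero] at this

theorem AugRad.mem (h : AugRad K G) {x : MonoidAlgebra K G} (hx : aug K G x = 0) :
    x ∈ Ring.jacobson (MonoidAlgebra K G) := by
  have h1 := mem_span_of_aug hx
  have h2 : Ideal.span (Set.range (fun g : G => of K G g - 1)) ≤
      Ring.jacobson (MonoidAlgebra K G) := by
    rw [Ideal.span_le]
    rintro _ ⟨g, rfl⟩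
    exact h g
  exact h2 h1

/-- left invertibility of matrices whose augmentation is invertible -/
theorem AugRad.exists_left_inv (h : AugRad K G) {ι : Type*} [Fintype ι] [DecidableEq ι]
    (X : Matrix ι ι (MonoidAlgebra K G)) (hX : IsUnit ((aug K G).toRingHom.mapMatrix X)) :
    ∃ Y : Matrix ι ι (MonoidAlgebra K G), Y * X = 1 := by
  obtain ⟨u, hu⟩ := hX
  set B : Matrix ι ι (MonoidAlgebra K G) :=
    (algebraMap K (MonoidAlgebra K G)).mapMatrix (↑u⁻¹ : Matrix ι ι K) with hB
  have hBX : (aug K G).toRingHom.mapMatrix (1 - B * X) = 0 := by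
    have e1 : (aug K G).toRingHom.mapMatrix B = (↑u⁻¹ : Matrix ι ι K) := by
      ext i j
      simp [hB]
    rw [map_sub, map_one, map_mul, e1, ← hu]
    simp
  have hmem : (1 - B * X) ∈ (Ideal.jacobson (⊥ : Ideal (MonoidAlgebra K G))).matrix ι := by
    intro i j
    rw [Ideal.jacobson_bot]
    apply h.mem
    have := congrFun (congrFun hBX i) j
    simpa using this
  have h2 := Ideal.matrix_jacobson_le _ hmem
  obtain ⟨z, hz⟩ := Ideal.mem_jacobson_iff.1 h2 (-1)
  have hz' : z * (-1) * (1 - B * X) + z - 1 = 0 := by
    refine Matrix.ext fun i j => ?_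
    exact hz i j
  refine ⟨z * B, ?_⟩
  have : z * B * X = (z * (-1) * (1 - B * X) + z - 1) + 1 := by noncomm_ring
  rw [this, hz', zero_add]

theorem AugRad.exists_inv (h : AugRad K G) {ι : Type*} [Fintype ι] [DecidableEq ι]
    (X : Matrix ι ι (MonoidAlgebra K G)) (hX : IsUnit ((aug K G).toRingHom.mapMatrix X)) :
    ∃ Y : Matrix ι ι (MonoidAlgebra K G), X * Y = 1 := by
  obtain ⟨Y, hY⟩ := h.exists_left_inv X hX
  have hYu : IsUnit ((aug K G).toRingHom.mapMatrix Y) := by
    have h1 := congrArg (aug K G).toRingHom.mapMatrix hY
    rw [map_mul, map_one] at h1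
    exact (Matrix.isUnit_iff_isUnit_det _).2 (Matrix.isUnit_det_of_right_inverse h1)
  obtain ⟨Z, hZ⟩ := h.exists_left_inv Y hYu
  refine ⟨Y, ?_⟩
  have : Z = X := by
    calc Z = Z * (Y * X) := by rw [hY, mul_one]
      _ = X := by rw [← mul_assoc, hZ, one_mul]
  rw [← this, hZ]

end aug

end MP331e4f
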