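import Mathlib

/-!
# Cuts of the integers with respect to finitely many permutations of bounded displacement
-/

namespace MP331e4f

variable {S : Type*}

/-- A separation with left part `U` and cut set `C` located in the window `[a, b]`. -/
structure Sep (t : S → Equiv.Perm ℤ) (a b : ℤ) (U : Set ℤ) (C : Finset ℤ) : Prop where
  lo : ∀ x < a, x ∈ U
  hi : ∀ x ∈ U, x ≤ b
  cin : ∀ x ∈ C, a ≤ x ∧ x ≤ b
  disj : ∀ x ∈ C, x ∉ U
  edge : ∀ σ, ∀ x ∈ U, t σ x ∈ U ∨ t σ x ∈ C

/-- there is a cut with at most `k` points in the window -/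
def HasCut (t : S → Equiv.Perm ℤ) (k : ℕ) (a b : ℤ) : Prop :=
  ∃ U C, Sep t a b U C ∧ C.card ≤ k

theorem Sep.mono {t : S → Equiv.Perm ℤ} {a b a' b' : ℤ} {U : Set ℤ} {C : Finset ℤ}
    (h : Sep t a b U C) (ha : a' ≤ a) (hb : b ≤ b') : Sep t a' b' U C where
  lo x hx := h.lo x (by omega)
  hi x hx := (h.hi x hx).trans hb
  cin x hx := ⟨ha.trans (h.cin x hx).1, (h.cin x hx).2.trans hb⟩
  disj := h.disj
  edge := h.edge

theorem hasCut_of_bdd {t : S → Equiv.Perm ℤ} {r : ℕ} (ht : ∀ σ x, |t σ x - x| ≤ r) (a : ℤ) :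
    HasCut t r a (a + r) := by
  refine ⟨{x | x < a}, Finset.Ico a (a + r), ⟨fun x hx => hx, ?_, ?_, ?_, ?_⟩, by simp⟩
  · intro x hx
    have : x < a := hx
    omega
  · intro x hx
    rw [Finset.mem_Ico] at hx
    omega
  · intro x hx hx'
    rw [Finset.mem_Ico] at hx
    have : x < a := hx'
    omega
  · intro σ x hx
    have h1 : x < a := hx
    have h2 := abs_le.1 (ht σ x)
    by_cases h3 : t σ x < a
    · exact Or.inl h3
    · right
      rw [Finset.mem_Ico]
      omega

open Classical in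
/-- perfect matching between two minimal cuts -/
theorem exists_matching {t : S → Equiv.Perm ℤ} (hone : ∃ σ, t σ = 1) {c : ℕ}
    {a b a₁ b₁ a₂ b₂ : ℤ} (hmin : ∀ U C, Sep t a b U C → c ≤ C.card)
    {U₁ U₂ : Set ℤ} {C₁ C₂ : Finset ℤ} (h₁ : Sep t a₁ b₁ U₁ C₁) (h₂ : Sep t a₂ b₂ U₂ C₂)
    (hc₁ : C₁.card = c) (hc₂ : C₂.card = c) (ha : a ≤ a₁) (hb : b₂ ≤ b) (hab : b₁ < a₂) :
    ∃ f : ℤ → ℤ,
      Set.InjOn f ((Finset.Icc a₁ b₂).filter (fun x => x ∈ U₂ ∧ x ∉ U₁) : Set ℤ) ∧
      (∀ v, v ∈ (Finset.Icc a₁ b₂).filter (fun x => (x ∈ U₂ ∨ x ∈ C₂) ∧ x ∉ U₁ ∧ x ∉ C₁) ↔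
        ∃ u ∈ (Finset.Icc a₁ b₂).filter (fun x => x ∈ U₂ ∧ x ∉ U₁), f u = v) ∧
      ∀ u ∈ (Finset.Icc a₁ b₂).filter (fun x => x ∈ U₂ ∧ x ∉ U₁), ∃ σ, t σ u = f u := by
  obtain ⟨σ1, hσ1⟩ := hone
  set Row := (Finset.Icc a₁ b₂).filter (fun x => x ∈ U₂ ∧ x ∉ U₁) with hRow
  set Col := (Finset.Icc a₁ b₂).filter (fun x => (x ∈ U₂ ∨ x ∈ C₂) ∧ x ∉ U₁ ∧ x ∉ C₁) with hCol
  set I := (Finset.Icc a₁ b₂).filter (fun x => x ∈ U₂ ∧ x ∉ U₁ ∧ x ∉ C₁) with hI
  have hC₁U₂ : ∀ x ∈ C₁, x ∈ U₂ := fun x hx => h₂.lo x (by have := (h₁.cin x hx).2; omega)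
  have hU₁ : ∀ x ∈ U₁, x < a₂ := fun x hx => by have := h₁.hi x hx; omega
  have hrowI : Row = C₁ ∪ I := by
    ext x
    simp only [hRow, hI, Finset.mem_filter, Finset.mem_union, Finset.mem_Icc]
    constructor
    · rintro ⟨h3, h4, h5⟩
      by_cases hx : x ∈ C₁
      · exact Or.inl hx
      · exact Or.inr ⟨h3, h4, h5, hx⟩
    · rintro (h3 | ⟨h3, h4, h5, _⟩)
      · have h6 := h₁.cin x h3
        have h7 := h₂.hi x (hC₁U₂ x h3)
        exact ⟨⟨h6.1, h7⟩, hC₁U₂ x h3, h₁.disj x h3⟩
      · exact ⟨h3, h4, h5⟩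
  have hcolI : Col = I ∪ C₂ := by
    ext x
    simp only [hCol, hI, Finset.mem_filter, Finset.mem_union, Finset.mem_Icc]
    constructor
    · rintro ⟨h3, h4 | h4, h5, h6⟩
      · exact Or.inl ⟨h3, h4, h5, h6⟩
      · exact Or.inr h4
    · rintro (⟨h3, h4, h5, h6⟩ | h3)
      · exact ⟨h3, Or.inl h4, h5, h6⟩
      · have h6 := h₂.cin x h3
        have h8 : x ∉ U₁ := fun h => by have := hU₁ x h; omega
        have h9 : x ∉ C₁ := fun h => by have := h₁.cin x h; omega
        have h10 : a₁ ≤ x := by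
          by_contra hlt
          exact h8 (h₁.lo x (by omega))
        exact ⟨⟨h10, h6.2⟩, Or.inr h3, h8, h9⟩
  have hcard : Row.card = Col.card := by
    rw [hrowI, hcolI, Finset.card_union_of_disjoint, Finset.card_union_of_disjoint, hc₁, hc₂,
      add_comm]
    · rw [Finset.disjoint_left]
      intro x hx hx'
      simp only [hI, Finset.mem_filter] at hx
      exact h₂.disj x hx' hx.2.1
    · rw [Finset.disjoint_left]
      intro x hx hx'
      simp only [hI, Finset.mem_filter] at hx'
      exact hx'.2.2.2 hx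
  -- Hall's condition
  set T : Row → Finset ℤ := fun v => Col.filter (fun u => ∃ σ, t σ v = u) with hT
  have hall : ∀ s : Finset Row, s.card ≤ (s.biUnion T).card := by
    intro s
    by_contra hlt
    push Not at hlt
    set R₁ : Finset ℤ := s.image Subtype.val with hR₁
    have hR₁card : R₁.card = s.card := Finset.card_image_of_injective _ Subtype.val_injective
    set NN : Finset ℤ := s.biUnion T with hNN
    have hR₁Row : ∀ x ∈ R₁, x ∈ Row := by
      intro x hx
      obtain ⟨v, _, rfl⟩ := Finset.mem_image.1 hx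
      exact v.2
    have hNNmem : ∀ x ∈ R₁, ∀ σ, t σ x ∈ Col → t σ x ∈ NN := by
      intro x hx σ hσ
      obtain ⟨v, hv, rfl⟩ := Finset.mem_image.1 hx
      rw [hNN, Finset.mem_biUnion]
      exact ⟨v, hv, by rw [hT, Finset.mem_filter]; exact ⟨hσ, σ, rfl⟩⟩
    have hNNCol : ∀ x ∈ NN, x ∈ Col := by
      intro x hx
      rw [hNN, Finset.mem_biUnion] at hx
      obtain ⟨v, _, hv⟩ := hx
      rw [hT, Finset.mem_filter] at hv
      exact hv.1
    have hsub : R₁ ⊆ C₁ ∪ NN := by
      intro x hx
      have h3 := hR₁Row x hx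
      rw [hrowI, Finset.mem_union] at h3
      rw [Finset.mem_union]
      rcases h3 with h3 | h3
      · exact Or.inl h3
      · right
        have h4 : x ∈ Col := by rw [hcolI, Finset.mem_union]; exact Or.inl h3
        have h5 := hNNmem x hx σ1
        rw [hσ1] at h5
        exact h5 h4
    have hsep : Sep t a b (U₁ ∪ R₁) ((C₁ ∪ NN) \ R₁) := by
      refine ⟨?_, ?_, ?_, ?_, ?_⟩
      · intro x hx
        exact Or.inl (h₁.lo x (by omega))
      · rintro x (hx | hx)
        · have h3 := h₁.hi x hx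
          by_contra hlt'
          have h4 : a₂ ≤ b₂ + 1 := by
            by_contra h5
            have h6 := h₂.hi (b₂ + 1) (h₂.lo _ (by omega))
            omega
          omega
        · have h3 := hR₁Row x (by simpa using hx)
          rw [hRow, Finset.mem_filter, Finset.mem_Icc] at h3
          omega
      · intro x hx
        rw [Finset.mem_sdiff, Finset.mem_union] at hx
        rcases hx.1 with h3 | h3
        · have h4 := h₁.cin x h3
          have h5 := h₂.hi x (hC₁U₂ x h3)
          omega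
        · have h4 := hNNCol x h3
          rw [hCol, Finset.mem_filter, Finset.mem_Icc] at h4
          omega
      · intro x hx hx'
        rw [Finset.mem_sdiff, Finset.mem_union] at hx
        rcases hx' with h3 | h3
        · rcases hx.1 with h4 | h4
          · exact h₁.disj x h4 h3
          · have h5 := hNNCol x h4
            rw [hCol, Finset.mem_filter] at h5
            exact h5.2.2.1 h3
        · exact hx.2 (by simpa using h3)
      · intro σ x hx
        have key : t σ x ∈ U₁ ∨ t σ x ∈ C₁ ∨ t σ x ∈ NN := by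
          rcases hx with h3 | h3
          · rcases h₁.edge σ x h3 with h4 | h4
            · exact Or.inl h4
            · exact Or.inr (Or.inl h4)
          · have h3' : x ∈ R₁ := by simpa using h3
            have h4 := hR₁Row x h3'
            rw [hRow, Finset.mem_filter] at h4
            by_cases h5 : t σ x ∈ U₁
            · exact Or.inl h5
            by_cases h6 : t σ x ∈ C₁
            · exact Or.inr (Or.inl h6)
            right; right
            apply hNNmem x h3' σ
            have h7 := h₂.edge σ x h4.2.1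
            rw [hCol, Finset.mem_filter, Finset.mem_Icc]
            refine ⟨⟨?_, ?_⟩, h7, h5, h6⟩
            · by_contra hlt'
              exact h5 (h₁.lo _ (by omega))
            · rcases h7 with h8 | h8
              · exact h₂.hi _ h8
              · exact (h₂.cin _ h8).2
        by_cases h8 : t σ x ∈ R₁
        · exact Or.inl (Or.inr (by simpa using h8))
        · rcases key with h9 | h9 | h9
          · exact Or.inl (Or.inl h9)
          · right; rw [Finset.mem_sdiff, Finset.mem_union]; exact ⟨Or.inl h9, h8⟩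
          · right; rw [Finset.mem_sdiff, Finset.mem_union]; exact ⟨Or.inr h9, h8⟩
    have h10 := hmin _ _ hsep
    rw [Finset.card_sdiff_of_subset hsub] at h10
    have h11 := Finset.card_union_le C₁ NN
    rw [hc₁] at h11
    rw [hR₁card] at h10
    have h12 : s.card ≤ (C₁ ∪ NN).card := by
      rw [← hR₁card]; exact Finset.card_le_card hsub
    have h13 : NN.card < s.card := hlt
    omega
  obtain ⟨f, hfinj, hf⟩ := (Finset.all_card_le_biUnion_card_iff_exists_injective T).1 hall
  have hf' : ∀ v : Row, f v ∈ Col ∧ ∃ σ, t σ v = f v := by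
    intro v
    have := hf v
    rw [hT, Finset.mem_filter] at this
    exact this
  refine ⟨fun x => if h : x ∈ Row then f ⟨x, h⟩ else 0, ?_, ?_, ?_⟩
  · intro x hx y hy hxy
    have hx' : x ∈ Row := by simpa using hx
    have hy' : y ∈ Row := by simpa using hy
    simp only [hx', hy', dif_pos] at hxy
    exact congrArg Subtype.val (hfinj hxy)
  · have himg : Finset.univ.image f = Col := by
      apply Finset.eq_of_subset_of_card_le
      · intro x hx
        obtain ⟨v, _, rfl⟩ := Finset.mem_image.1 hx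
        exact (hf' v).1
      · rw [Finset.card_image_of_injective _ hfinj, Finset.card_univ, Fintype.card_coe, hcard]
    intro v
    constructor
    · intro hv
      rw [← himg] at hv
      obtain ⟨u, _, hu⟩ := Finset.mem_image.1 hv
      exact ⟨u.1, u.2, by simp only [u.2, dif_pos]; exact hu⟩
    · rintro ⟨u, hu, rfl⟩
      simp only [hu, dif_pos]
      exact (hf' ⟨u, hu⟩).1
  · intro u hu
    simp only [hu, dif_pos]
    exact (hf' ⟨u, hu⟩).2

end MP331e4f
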