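import Pool.Agent.Lib_MP_331e4f_al.Transfer
import Pool.Agent.Lib_MP_331e4f_al.Cut

/-!
# Finitely supported solutions of the generic system vanish
-/

namespace MP331e4f

open Matrix

variable {K : Type*} [Field K] {S : Type*} [Fintype S] {d : ℕ}

section steps

variable {t : S → Equiv.Perm ℤ} {L0 : ℕ}
    {A : S → Matrix (Fin d) (Fin d) K} {a b a₁ : ℤ} {U₁ U₂ : Set ℤ} {C₁ C₂ : Finset ℤ}

/-- vanishing propagates to the right -/
theorem step_left (hone : ∃ σ, t σ = 1)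
    (hsymm : ∀ σ, ∃ σ', t σ' = (t σ)⁻¹) {c : ℕ} (hA : Generic (2 * (L0 + 1)) A)
    (hmin : ∀ U C, Sep t a b U C → c ≤ C.card)
    (h₁ : Sep t a₁ (a₁ + L0) U₁ C₁) (h₂ : Sep t (a₁ + L0 + 1) (a₁ + L0 + 1 + L0) U₂ C₂)
    (hc₁ : C₁.card = c) (hc₂ : C₂.card = c) (ha : a ≤ a₁) (hb : a₁ + L0 + 1 + L0 ≤ b)
    (F : ℤ → Fin d → K) (hF : ∀ x, x ∈ U₁ ∨ x ∈ C₁ → F x = 0)
    (heq : ∀ v, v ∈ U₂ → v ∉ U₁ → ∑ σ, (A σ).mulVec (F ((t σ)⁻¹ v)) = 0) :
    ∀ x, x ∈ U₂ ∨ x ∈ C₂ → F x = 0 := by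
  classical
  obtain ⟨f, hfinj, hfim, hft⟩ := exists_matching hone hmin h₁ h₂ hc₁ hc₂ ha hb (by omega)
  set Row := (Finset.Icc a₁ (a₁ + L0 + 1 + L0)).filter (fun x => x ∈ U₂ ∧ x ∉ U₁) with hRow
  set Col := (Finset.Icc a₁ (a₁ + L0 + 1 + L0)).filter
    (fun x => (x ∈ U₂ ∨ x ∈ C₂) ∧ x ∉ U₁ ∧ x ∉ C₁) with hCol
  have hle : ∀ x, x ∈ U₂ ∨ x ∈ C₂ → x ≤ a₁ + L0 + 1 + L0 := by
    rintro x (hx | hx)
    · exact h₂.hi x hx
    · exact (h₂.cin x hx).2
  have hge : ∀ x, x ∉ U₁ → a₁ ≤ x := by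
    intro x hx
    by_contra hlt
    exact hx (h₁.lo x (by omega))
  have hg : ∀ u : ℤ, ∃ v : ℤ, u ∈ Col → v ∈ Row ∧ f v = u := by
    intro u
    by_cases hu : u ∈ Col
    · obtain ⟨v, hv, hvu⟩ := (hfim u).1 hu
      exact ⟨v, fun _ => ⟨hv, hvu⟩⟩
    · exact ⟨0, fun h => absurd h hu⟩
  choose g hg using hg
  have hres := transfer hA t a₁ Row Col (by
    intro x hx
    rw [hRow, Finset.mem_filter, Finset.mem_Icc] at hx
    push_cast
    omega) (by
    intro x hx
    rw [hCol, Finset.mem_filter, Finset.mem_Icc] at hx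
    push_cast
    omega) g (by
    intro x hx y hy hxy
    have h3 := (hg x (by simpa using hx)).2
    have h4 := (hg y (by simpa using hy)).2
    rw [← h3, ← h4, hxy]) (by
    intro v
    constructor
    · intro hv
      have h3 : f v ∈ Col := (hfim _).2 ⟨v, hv, rfl⟩
      refine ⟨f v, h3, ?_⟩
      exact hfinj (by simpa using (hg _ h3).1) (by simpa using hv) (hg _ h3).2
    · rintro ⟨u, hu, rfl⟩
      exact (hg u hu).1) (by
    intro u hu
    obtain ⟨σ, hσ⟩ := hft _ (hg u hu).1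
    obtain ⟨σ', hσ'⟩ := hsymm σ
    refine ⟨σ', ?_⟩
    rw [hσ']
    rw [(hg u hu).2] at hσ
    have h3 : (t σ)⁻¹ (t σ (g u)) = g u := Equiv.symm_apply_apply _ _
    rw [hσ] at h3
    exact h3) F (by
    intro v hv
    rw [hRow, Finset.mem_filter] at hv
    exact heq v hv.2.1 hv.2.2) (by
    intro v hv σ hnot
    rw [hRow, Finset.mem_filter] at hv
    obtain ⟨σ', hσ'⟩ := hsymm σ
    have h3 := h₂.edge σ' v hv.2.1
    rw [hσ'] at h3
    by_cases h4 : (t σ)⁻¹ v ∈ U₁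
    · exact hF _ (Or.inl h4)
    by_cases h5 : (t σ)⁻¹ v ∈ C₁
    · exact hF _ (Or.inr h5)
    exfalso
    apply hnot
    rw [hCol, Finset.mem_filter, Finset.mem_Icc]
    exact ⟨⟨hge _ h4, hle _ h3⟩, h3, h4, h5⟩)
  intro x hx
  by_cases h4 : x ∈ U₁
  · exact hF _ (Or.inl h4)
  by_cases h5 : x ∈ C₁
  · exact hF _ (Or.inr h5)
  apply hres
  rw [hCol, Finset.mem_filter, Finset.mem_Icc]
  exact ⟨⟨hge _ h4, hle _ hx⟩, hx, h4, h5⟩

/-- vanishing propagates to the left -/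
theorem step_right (hone : ∃ σ, t σ = 1) {c : ℕ} (hA : Generic (2 * (L0 + 1)) A)
    (hmin : ∀ U C, Sep t a b U C → c ≤ C.card)
    (h₁ : Sep t a₁ (a₁ + L0) U₁ C₁) (h₂ : Sep t (a₁ + L0 + 1) (a₁ + L0 + 1 + L0) U₂ C₂)
    (hc₁ : C₁.card = c) (hc₂ : C₂.card = c) (ha : a ≤ a₁) (hb : a₁ + L0 + 1 + L0 ≤ b)
    (F : ℤ → Fin d → K) (hF : ∀ x, x ∉ U₂ → F x = 0)
    (heq : ∀ v, v ∉ U₁ → v ∉ C₁ → ∑ σ, (A σ).mulVec (F ((t σ)⁻¹ v)) = 0) :
    ∀ x, x ∉ U₁ → F x = 0 := by
  classical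
  obtain ⟨f, hfinj, hfim, hft⟩ := exists_matching hone hmin h₁ h₂ hc₁ hc₂ ha hb (by omega)
  set Row := (Finset.Icc a₁ (a₁ + L0 + 1 + L0)).filter (fun x => x ∈ U₂ ∧ x ∉ U₁) with hRow
  set Col := (Finset.Icc a₁ (a₁ + L0 + 1 + L0)).filter
    (fun x => (x ∈ U₂ ∨ x ∈ C₂) ∧ x ∉ U₁ ∧ x ∉ C₁) with hCol
  have hge : ∀ x, x ∉ U₁ → a₁ ≤ x := by
    intro x hx
    by_contra hlt
    exact hx (h₁.lo x (by omega))
  have hres := transfer hA t a₁ Col Row (by
    intro x hx
    rw [hCol, Finset.mem_filter, Finset.mem_Icc] at hx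
    push_cast
    omega) (by
    intro x hx
    rw [hRow, Finset.mem_filter, Finset.mem_Icc] at hx
    push_cast
    omega) f hfinj hfim hft F (by
    intro v hv
    rw [hCol, Finset.mem_filter] at hv
    exact heq v hv.2.2.1 hv.2.2.2) (by
    intro v hv σ hnot
    rw [hCol, Finset.mem_filter] at hv
    by_cases h3 : (t σ)⁻¹ v ∈ U₂
    · by_cases h4 : (t σ)⁻¹ v ∈ U₁
      · exfalso
        have h5 := h₁.edge σ _ h4
        have h6 : t σ ((t σ)⁻¹ v) = v := Equiv.apply_symm_apply _ _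
        rw [h6] at h5
        rcases h5 with h5 | h5
        · exact hv.2.2.1 h5
        · exact hv.2.2.2 h5
      · exfalso
        apply hnot
        rw [hRow, Finset.mem_filter, Finset.mem_Icc]
        exact ⟨⟨hge _ h4, h₂.hi _ h3⟩, h3, h4⟩
    · exact hF _ h3)
  intro x hx
  by_cases h3 : x ∈ U₂
  · apply hres
    rw [hRow, Finset.mem_filter, Finset.mem_Icc]
    exact ⟨⟨hge _ hx, h₂.hi _ h3⟩, h3, hx⟩
  · exact hF _ h3

end steps

theorem combin {t : S → Equiv.Perm ℤ} (hone : ∃ σ, t σ = 1)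
    (hsymm : ∀ σ, ∃ σ', t σ' = (t σ)⁻¹) {c : ℕ} (hc : 1 ≤ c) {L0 : ℕ}
    (hcut : ∀ a : ℤ, HasCut t c a (a + L0))
    (hno : ∀ L : ℕ, ∃ a : ℤ, ¬ HasCut t (c - 1) a (a + L))
    {A : S → Matrix (Fin d) (Fin d) K} (hA : Generic (2 * (L0 + 1)) A) (ρ : ℕ) :
    ∃ x1 : ℤ, ∀ F : ℤ → Fin d → K, (∀ x, F x ≠ 0 → |x - x1| ≤ ρ) →
      (∀ v, v ≠ x1 → ∑ σ, (A σ).mulVec (F ((t σ)⁻¹ v)) = 0) → F = 0 := by
  classical
  set J : ℕ := ρ + L0 + 2 with hJ
  obtain ⟨a, ha⟩ := hno ((2 * J + 2) * (L0 + 1))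
  set b : ℤ := a + ((2 * J + 2) * (L0 + 1) : ℕ) with hb
  set aa : ℕ → ℤ := fun j => a + (j * (L0 + 1) : ℕ) with haa
  have haa_succ : ∀ j, aa (j + 1) = aa j + L0 + 1 := by
    intro j
    simp only [haa]
    push_cast
    ring
  have haa_le' : ∀ i j, i ≤ j → aa i ≤ aa j := by
    intro i j hij
    have h1 : i * (L0 + 1) ≤ j * (L0 + 1) := Nat.mul_le_mul_right _ hij
    simp only [haa]
    omega
  have haa_lt : ∀ i j, i < j → aa i + L0 < aa j := by
    intro i j hij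
    have h1 := haa_le' (i + 1) j hij
    rw [haa_succ] at h1
    omega
  have haa_le : ∀ j, a ≤ aa j := by
    intro j
    simp only [haa]
    omega
  have hab : aa (2 * J + 2) = b := rfl
  have hbj : ∀ j, j ≤ 2 * J + 1 → aa j + L0 ≤ b := by
    intro j hj
    have := haa_lt j (2 * J + 2) (by omega)
    omega
  choose U C hUC using fun j : ℕ => hcut (aa j)
  have hsep : ∀ j, Sep t (aa j) (aa j + L0) (U j) (C j) := fun j => (hUC j).1
  have hmin : ∀ U C, Sep t a b U C → c ≤ C.card := by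
    intro U' C' h
    by_contra hlt
    exact ha ⟨U', C', h, by omega⟩
  have hcard : ∀ j, j ≤ 2 * J + 1 → (C j).card = c := fun j hj =>
    le_antisymm (hUC j).2 (hmin _ _ ((hsep j).mono (haa_le j) (hbj j hj)))
  obtain ⟨x1, hx1⟩ : (C J).Nonempty := by
    rw [← Finset.card_pos, hcard J (by omega)]; omega
  have hx1' := (hsep J).cin x1 hx1
  have hx1U : x1 ∉ U J := (hsep J).disj x1 hx1
  have hnest : ∀ i j, i < j → ∀ x, x ∈ U i ∨ x ∈ C i → x ∈ U j := by
    intro i j hij x hx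
    apply (hsep j).lo
    have := haa_lt i j hij
    rcases hx with hx | hx
    · have := (hsep i).hi x hx; omega
    · have := ((hsep i).cin x hx).2; omega
  refine ⟨x1, fun F hsupp heq => ?_⟩
  have hdist : ∀ i j, i ≤ j → aa i + ((j - i : ℕ) : ℤ) ≤ aa j := by
    intro i j hij
    have h1 : i * (L0 + 1) + (j - i) ≤ j * (L0 + 1) := by
      obtain ⟨e, rfl⟩ := Nat.exists_eq_add_of_le hij
      have : i + e - i = e := by omega
      rw [this]
      nlinarith [Nat.zero_le (e * L0)]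
    simp only [haa]
    omega
  -- from the left
  have hleft : ∀ j, j ≤ J → ∀ x, x ∈ U j ∨ x ∈ C j → F x = 0 := by
    intro j
    induction j with
    | zero =>
      intro _ x hx
      by_contra hne
      have h1 := abs_le.1 (hsupp x hne)
      have h2 : x ≤ aa 0 + L0 := by
        rcases hx with hx | hx
        · exact (hsep 0).hi x hx
        · exact ((hsep 0).cin x hx).2
      have h3 := hdist 0 J (by omega)
      have h4 : ((J - 0 : ℕ) : ℤ) = ρ + L0 + 2 := by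
        rw [hJ]; push_cast; ring
      rw [h4] at h3
      omega
    | succ j ih =>
      intro hj
      have h2 : Sep t (aa j + L0 + 1) (aa j + L0 + 1 + L0) (U (j + 1)) (C (j + 1)) := by
        rw [← haa_succ]; exact hsep (j + 1)
      refine step_left hone hsymm hA hmin (hsep j) h2 (hcard j (by omega))
        (hcard (j + 1) (by omega)) (haa_le j) ?_ F (ih (by omega)) ?_
      · rw [← haa_succ]; exact hbj (j + 1) (by omega)
      · intro v hv _
        apply heq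
        rintro rfl
        rcases Nat.lt_or_ge (j + 1) J with h3 | h3
        · exact hx1U (hnest _ _ h3 _ (Or.inl hv))
        · have : j + 1 = J := by omega
          rw [this] at hv
          exact hx1U hv
  -- from the right
  have hright : ∀ i, i ≤ J + 1 → ∀ x, x ∉ U (2 * J + 1 - i) → F x = 0 := by
    intro i
    induction i with
    | zero =>
      intro _ x hx
      by_contra hne
      have h1 := abs_le.1 (hsupp x hne)
      have h2 : aa (2 * J + 1) ≤ x := by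
        by_contra hlt
        exact hx ((hsep _).lo x (by simpa using hlt))
      have h3 := hdist J (2 * J + 1) (by omega)
      have h4 : ((2 * J + 1 - J : ℕ) : ℤ) = ρ + L0 + 3 := by
        have : 2 * J + 1 - J = ρ + L0 + 3 := by omega
        rw [this]; push_cast; ring
      rw [h4] at h3
      omega
    | succ i ih =>
      intro hi
      have e1 : 2 * J + 1 - i = (2 * J + 1 - (i + 1)) + 1 := by omega
      set j := 2 * J + 1 - (i + 1) with hj
      have h2 : Sep t (aa j + L0 + 1) (aa j + L0 + 1 + L0) (U (j + 1)) (C (j + 1)) := by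
        rw [← haa_succ]; exact hsep (j + 1)
      refine step_right hone hA hmin (hsep j) h2 (hcard j (by omega))
        (hcard (j + 1) (by omega)) (haa_le j) ?_ F ?_ ?_
      · rw [← haa_succ]; exact hbj (j + 1) (by omega)
      · rw [← e1]; exact ih (by omega)
      · intro v hv1 hv2
        apply heq
        rintro rfl
        rcases Nat.lt_or_ge J j with h3 | h3
        · exact hv1 (hnest _ _ h3 _ (Or.inr hx1))
        · have : j = J := by omega
          rw [this] at hv2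
          exact hv2 hx1
  ext1 x
  by_cases hx : x ∈ U J
  · exact hleft J le_rfl x (Or.inl hx)
  · have e1 : 2 * J + 1 - (J + 1) = J := by omega
    have := hright (J + 1) le_rfl x (by rw [e1]; exact hx)
    exact this

end MP331e4f
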