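import Mathlib

/-!
# Generic matrix coefficients for labelled bipartite graphs with a perfect matching

A *type* consists of permutations `m σ` of `Fin N` (one for every colour `σ`), of sets `D σ` of
sources of the edges `u → m σ u` of colour `σ`, and of a set `Col` of columns with a choice `s u`
of a colour for every column such that `u ↦ m (s u) u` is injective on `Col`. The rows are the
points `m (s u) u`.
-/

namespace MP331e4f

open Matrix

variable {S : Type*} [Fintype S] [DecidableEq S] {N : ℕ}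

/-- types -/
abbrev Ty (S : Type*) (N : ℕ) : Type _ :=
  (S → Finset (Fin N)) × (S → Equiv.Perm (Fin N)) × Finset (Fin N) × (Fin N → S)

/-- the matching of a type -/
def mu (τ : Ty S N) (u : Fin N) : Fin N := τ.2.1 (τ.2.2.2 u) u

/-- good types: the matching uses existing edges and is injective -/
def GoodTy (τ : Ty S N) : Prop :=
  (∀ u ∈ τ.2.2.1, u ∈ τ.1 (τ.2.2.2 u)) ∧ Set.InjOn (mu τ) (τ.2.2.1 : Set (Fin N))

/-- the block matrix of a type with coefficient matrices `A` -/
def QQ {R : Type*} [CommRing R] (τ : Ty S N)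
    (A : S → Matrix (Equiv.Perm (Fin N)) (Equiv.Perm (Fin N)) R) :
    Matrix (Fin N × Equiv.Perm (Fin N)) (Fin N × Equiv.Perm (Fin N)) R :=
  Matrix.of fun p q =>
    if p.1 ∈ τ.2.2.1 ∧ q.1 ∈ τ.2.2.1 then
      ∑ σ, if q.1 ∈ τ.1 σ ∧ τ.2.1 σ q.1 = mu τ p.1 then A σ p.2 q.2 else 0
    else if p = q then 1 else 0

/-- the block of position `k` for sparse coefficients `y` -/
def BB {R : Type*} [CommRing R] (τ : Ty S N) (k : Fin N)
    (y : S × Equiv.Perm (Fin N) → R) :
    Matrix (Equiv.Perm (Fin N)) (Equiv.Perm (Fin N)) R :=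
  Matrix.of fun g' g =>
    if g'⁻¹ k ∈ τ.2.2.1 ∧ g⁻¹ k ∈ τ.2.2.1 then
      ∑ σ, if g⁻¹ k ∈ τ.1 σ ∧ g * (τ.2.1 σ)⁻¹ = g' * (τ.2.1 (τ.2.2.2 (g'⁻¹ k)))⁻¹ then y (σ, g)
        else 0
    else if g' = g then 1 else 0

theorem BB_special {R : Type*} [CommRing R] {τ : Ty S N} (hτ : GoodTy τ) (k : Fin N) :
    BB τ k (fun p : S × Equiv.Perm (Fin N) => if p.1 = τ.2.2.2 (p.2⁻¹ k) then (1 : R) else 0) =
      1 := by
  ext g' g
  rw [BB, Matrix.of_apply, Matrix.one_apply]
  by_cases h : g'⁻¹ k ∈ τ.2.2.1 ∧ g⁻¹ k ∈ τ.2.2.1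
  · rw [if_pos h]
    have h1 : ∀ σ, (if g⁻¹ k ∈ τ.1 σ ∧
        g * (τ.2.1 σ)⁻¹ = g' * (τ.2.1 (τ.2.2.2 (g'⁻¹ k)))⁻¹ then
          (if σ = τ.2.2.2 (g⁻¹ k) then (1 : R) else 0) else 0) =
        if σ = τ.2.2.2 (g⁻¹ k) then (if g' = g then 1 else 0) else 0 := by
      intro σ
      by_cases hσ : σ = τ.2.2.2 (g⁻¹ k)
      · subst hσ
        simp only [if_true]
        have hiff : (g⁻¹ k ∈ τ.1 (τ.2.2.2 (g⁻¹ k)) ∧
            g * (τ.2.1 (τ.2.2.2 (g⁻¹ k)))⁻¹ = g' * (τ.2.1 (τ.2.2.2 (g'⁻¹ k)))⁻¹) ↔ g' = g := by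
          constructor
          · rintro ⟨_, h2⟩
            have h3 : mu τ (g⁻¹ k) = mu τ (g'⁻¹ k) := by
              have h4 := congrArg (fun x : Equiv.Perm (Fin N) => x⁻¹ k) h2
              simpa [mu, _root_.mul_inv_rev, Equiv.Perm.mul_apply] using h4
            have h5 : g⁻¹ k = g'⁻¹ k := hτ.2 h.2 h.1 h3
            rw [h5] at h2
            exact (mul_right_cancel h2).symm
          · rintro rfl
            exact ⟨hτ.1 _ h.2, rfl⟩
        rw [if_congr hiff rfl rfl]
      · rw [if_neg hσ, if_neg hσ, ite_self]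
    rw [Finset.sum_congr rfl (fun σ _ => h1 σ)]
    simp
  · rw [if_neg h]

/-- the sparse coefficient matrices -/
def spA {R : Type*} [CommRing R] (τ : Ty S N) (y : S × Equiv.Perm (Fin N) → R) (σ : S) :
    Matrix (Equiv.Perm (Fin N)) (Equiv.Perm (Fin N)) R :=
  Matrix.of fun h g => if h = g * (τ.2.1 σ)⁻¹ then y (σ, g) else 0

omit [DecidableEq S] in
theorem det_QQ_ne_zero {E : Type*} [Field E] {τ : Ty S N} {y : S × Equiv.Perm (Fin N) → E}
    (hy : ∀ k, (BB τ k y).det ≠ 0) : (QQ τ (spA τ y)).det ≠ 0 := by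
  intro hdet
  obtain ⟨v, hv0, hv⟩ := Matrix.exists_mulVec_eq_zero_iff.2 hdet
  apply hv0
  -- off the columns
  have hoff : ∀ u h, u ∉ τ.2.2.1 → v (u, h) = 0 := by
    intro u h hu
    have h1 := congrFun hv (u, h)
    rw [Matrix.mulVec, dotProduct] at h1
    simp only [QQ, Matrix.of_apply, hu, false_and, if_false, Pi.zero_apply] at h1
    rw [Finset.sum_eq_single (u, h)] at h1
    · simpa using h1
    · intro q _ hq
      rw [if_neg (Ne.symm hq), zero_mul]
    · intro h2; exact absurd (Finset.mem_univ _) h2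
  have hk : ∀ k, (fun g : Equiv.Perm (Fin N) => v (g⁻¹ k, g)) = 0 := by
    intro k
    by_contra hne
    apply hy k
    rw [← Matrix.exists_mulVec_eq_zero_iff]
    refine ⟨_, hne, ?_⟩
    ext g'
    rw [Matrix.mulVec, dotProduct, Pi.zero_apply]
    by_cases hg' : g'⁻¹ k ∈ τ.2.2.1
    · have h1 := congrFun hv (g'⁻¹ k, g' * (τ.2.1 (τ.2.2.2 (g'⁻¹ k)))⁻¹)
      rw [Matrix.mulVec, dotProduct, Pi.zero_apply] at h1
      rw [← h1, Fintype.sum_prod_type_right]
      apply Finset.sum_congr rfl
      intro g _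
      rw [Finset.sum_eq_single (g⁻¹ k)]
      · simp only [BB, QQ, Matrix.of_apply, hg', true_and]
        by_cases hg : g⁻¹ k ∈ τ.2.2.1
        · rw [if_pos hg, if_pos hg]
          congr 1
          apply Finset.sum_congr rfl
          intro σ _
          simp only [spA, Matrix.of_apply]
          by_cases hc : g⁻¹ k ∈ τ.1 σ
          · by_cases hc2 : g * (τ.2.1 σ)⁻¹ = g' * (τ.2.1 (τ.2.2.2 (g'⁻¹ k)))⁻¹
            · have hc3 : τ.2.1 σ (g⁻¹ k) = mu τ (g'⁻¹ k) := by
                have h4 := congrArg (fun x : Equiv.Perm (Fin N) => x⁻¹ k) hc2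
                simpa [mu, _root_.mul_inv_rev, Equiv.Perm.mul_apply] using h4
              rw [if_pos ⟨hc, hc2⟩, if_pos ⟨hc, hc3⟩, if_pos hc2.symm]
            · rw [if_neg (fun h => hc2 h.2)]
              split_ifs with h5 h6
              · exact absurd h6.symm hc2
              · rfl
              · rfl
          · rw [if_neg (fun h => hc h.1), if_neg (fun h => hc h.1)]
        · rw [hoff _ _ hg, mul_zero, mul_zero]
      · intro u _ hu
        by_cases huC : u ∈ τ.2.2.1
        · have : QQ τ (spA τ y) (g'⁻¹ k, g' * (τ.2.1 (τ.2.2.2 (g'⁻¹ k)))⁻¹) (u, g) = 0 := by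
            simp only [QQ, Matrix.of_apply, hg', huC, and_self, if_true]
            apply Finset.sum_eq_zero
            intro σ _
            split_ifs with h5
            · simp only [spA, Matrix.of_apply]
              rw [if_neg]
              intro h6
              apply hu
              have h4 := congrArg (fun x : Equiv.Perm (Fin N) => x⁻¹ k) h6
              have h7 : mu τ (g'⁻¹ k) = τ.2.1 σ (g⁻¹ k) := by
                simpa [mu, _root_.mul_inv_rev, Equiv.Perm.mul_apply] using h4
              rw [← h5.2] at h7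
              exact (τ.2.1 σ).injective h7
            · rfl
          rw [this, zero_mul]
        · rw [hoff _ _ huC, mul_zero]
      · intro h2; exact absurd (Finset.mem_univ _) h2
    · rw [Finset.sum_eq_single g']
      · simp only [BB, Matrix.of_apply]
        rw [hoff _ _ hg', mul_zero]
      · intro g _ hg
        simp only [BB, Matrix.of_apply]
        rw [if_neg (fun h => hg' h.1), if_neg (Ne.symm hg), zero_mul]
      · intro h2; exact absurd (Finset.mem_univ _) h2
  ext ⟨u, g⟩
  have := congrFun (hk (g u)) g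
  simpa using this

theorem exists_good_one {E : Type*} [Field E] [Infinite E] {τ : Ty S N} (hτ : GoodTy τ) :
    ∃ A : S → Matrix (Equiv.Perm (Fin N)) (Equiv.Perm (Fin N)) E, (QQ τ A).det ≠ 0 := by
  classical
  set p : Fin N → MvPolynomial (S × Equiv.Perm (Fin N)) E :=
    fun k => (BB τ k (fun q => MvPolynomial.X q)).det with hp
  have hmap : ∀ k (y : S × Equiv.Perm (Fin N) → E),
      MvPolynomial.eval y (p k) = (BB τ k y).det := by
    intro k y
    rw [hp, RingHom.map_det]
    congr 1
    ext g' g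
    simp only [BB, RingHom.mapMatrix_apply, Matrix.map_apply, Matrix.of_apply]
    split_ifs with h1
    · rw [map_sum]
      apply Finset.sum_congr rfl
      intro σ _
      split_ifs
      · simp
      · simp
    · simp
    · simp
  have hpne : ∀ k, p k ≠ 0 := by
    intro k h0
    have h1 := hmap k (fun p => if p.1 = τ.2.2.2 (p.2⁻¹ k) then (1 : E) else 0)
    rw [h0, map_zero, BB_special hτ, Matrix.det_one] at h1
    exact zero_ne_one h1
  have hprod : ∏ k, p k ≠ 0 := Finset.prod_ne_zero_iff.2 (fun k _ => hpne k)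
  obtain ⟨y, hy⟩ : ∃ y, MvPolynomial.eval y (∏ k, p k) ≠ 0 := by
    by_contra hcon
    push Not at hcon
    apply hprod
    exact MvPolynomial.funext (fun x => by rw [hcon x, map_zero])
  rw [map_prod, Finset.prod_ne_zero_iff] at hy
  exact ⟨spA τ y, det_QQ_ne_zero (fun k => by rw [← hmap]; exact hy k (Finset.mem_univ _))⟩

theorem exists_good_all (E : Type*) [Field E] [Infinite E] (S : Type*) [Fintype S]
    [DecidableEq S] (N : ℕ) :
    ∃ A : S → Matrix (Equiv.Perm (Fin N)) (Equiv.Perm (Fin N)) E,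
      ∀ τ : Ty S N, GoodTy τ → (QQ τ A).det ≠ 0 := by
  classical
  set P : Ty S N → MvPolynomial (S × Equiv.Perm (Fin N) × Equiv.Perm (Fin N)) E :=
    fun τ => (QQ τ (fun σ => Matrix.of fun h g => MvPolynomial.X (σ, h, g))).det with hP
  have hmap : ∀ τ (a : S × Equiv.Perm (Fin N) × Equiv.Perm (Fin N) → E),
      MvPolynomial.eval a (P τ) = (QQ τ (fun σ => Matrix.of fun h g => a (σ, h, g))).det := by
    intro τ a
    rw [hP, RingHom.map_det]
    congr 1
    ext p q
    simp only [QQ, RingHom.mapMatrix_apply, Matrix.map_apply, Matrix.of_apply]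
    split_ifs with h1
    · rw [map_sum]
      apply Finset.sum_congr rfl
      intro σ _
      split_ifs
      · simp
      · simp
    · simp
    · simp
  have hPne : ∀ τ, GoodTy τ → P τ ≠ 0 := by
    intro τ hτ h0
    obtain ⟨A, hA⟩ := exists_good_one (E := E) hτ
    apply hA
    have h1 := hmap τ (fun q => A q.1 q.2.1 q.2.2)
    rw [h0, map_zero] at h1
    rw [h1]
    rfl
  have hprod : ∏ τ : Ty S N, (if GoodTy τ then P τ else 1) ≠ 0 := by
    rw [Finset.prod_ne_zero_iff]
    intro τ _
    split_ifs with h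
    · exact hPne τ h
    · exact one_ne_zero
  obtain ⟨y, hy⟩ : ∃ y, MvPolynomial.eval y (∏ τ : Ty S N, (if GoodTy τ then P τ else 1)) ≠ 0 := by
    by_contra hcon
    push Not at hcon
    apply hprod
    exact MvPolynomial.funext (fun x => by rw [hcon x, map_zero])
  rw [map_prod, Finset.prod_ne_zero_iff] at hy
  refine ⟨fun σ => Matrix.of fun h g => y (σ, h, g), fun τ hτ => ?_⟩
  have := hy τ (Finset.mem_univ _)
  rw [if_pos hτ, hmap] at this
  exact this

omit [DecidableEq S] in
/-- injectivity in vector form -/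
theorem inj_of_det {E : Type*} [Field E] {τ : Ty S N}
    {A : S → Matrix (Equiv.Perm (Fin N)) (Equiv.Perm (Fin N)) E} (hA : (QQ τ A).det ≠ 0)
    (F : Fin N → Equiv.Perm (Fin N) → E) (hF : ∀ u, u ∉ τ.2.2.1 → F u = 0)
    (heq : ∀ u' ∈ τ.2.2.1, ∑ σ, (if (τ.2.1 σ)⁻¹ (mu τ u') ∈ τ.1 σ then
      (A σ).mulVec (F ((τ.2.1 σ)⁻¹ (mu τ u'))) else 0) = 0) : F = 0 := by
  set v : Fin N × Equiv.Perm (Fin N) → E := fun q => F q.1 q.2 with hv
  have hQ : (QQ τ A).mulVec v = 0 := by
    ext ⟨u', h'⟩
    rw [Matrix.mulVec, dotProduct, Pi.zero_apply]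
    by_cases hu' : u' ∈ τ.2.2.1
    · have h1 := congrFun (heq u' hu') h'
      rw [Pi.zero_apply, Finset.sum_apply] at h1
      rw [← h1, Fintype.sum_prod_type]
      simp only [QQ, Matrix.of_apply, hu', true_and]
      have h2 : ∀ u : Fin N, ∀ g, (if u ∈ τ.2.2.1 then
          ∑ σ, (if u ∈ τ.1 σ ∧ τ.2.1 σ u = mu τ u' then A σ h' g else 0) else
            if (u', h') = (u, g) then 1 else 0) * v (u, g) =
          ∑ σ, (if u ∈ τ.1 σ ∧ τ.2.1 σ u = mu τ u' then A σ h' g * F u g else 0) := by
        intro u g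
        by_cases hu : u ∈ τ.2.2.1
        · rw [if_pos hu, Finset.sum_mul]
          apply Finset.sum_congr rfl
          intro σ _
          split_ifs <;> simp [hv]
        · have h3 : F u g = 0 := by rw [hF u hu]; rfl
          simp [hv, h3]
      simp_rw [h2]
      rw [Finset.sum_congr rfl (fun u _ => Finset.sum_comm), Finset.sum_comm]
      apply Finset.sum_congr rfl
      intro σ _
      rw [Finset.sum_eq_single ((τ.2.1 σ)⁻¹ (mu τ u'))]
      · by_cases hc : (τ.2.1 σ)⁻¹ (mu τ u') ∈ τ.1 σ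
        · simp only [hc, true_and, if_true]
          rw [Matrix.mulVec, dotProduct]
          apply Finset.sum_congr rfl
          intro g _
          rw [if_pos]
          exact Equiv.apply_symm_apply _ _
        · rw [if_neg hc]
          apply Finset.sum_eq_zero
          intro g _
          rw [if_neg (fun h => hc h.1)]
      · intro u _ hu
        apply Finset.sum_eq_zero
        intro g _
        rw [if_neg]
        rintro ⟨_, h4⟩
        apply hu
        rw [← h4]
        exact (Equiv.symm_apply_apply _ _).symm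
      · intro h2; exact absurd (Finset.mem_univ _) h2
    · apply Finset.sum_eq_zero
      rintro ⟨u, g⟩ _
      simp only [QQ, Matrix.of_apply, hu', false_and, if_false]
      split_ifs with h
      · have h5 : u = u' := (congrArg Prod.fst h).symm
        have h6 : F u g = 0 := by rw [h5, hF u' hu']; rfl
        simp [hv, h6]
      · simp
  have h0 := Matrix.eq_zero_of_mulVec_eq_zero hA hQ
  ext u g
  exact congrFun h0 (u, g)

/-- generic matrices over an arbitrary field -/
theorem exists_generic (K : Type*) [Field K] (S : Type*) [Fintype S] [DecidableEq S] (N : ℕ) :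
    ∃ (d : ℕ) (A : S → Matrix (Fin d) (Fin d) K), 0 < d ∧ ∀ τ : Ty S N, GoodTy τ →
      ∀ F : Fin N → Fin d → K, (∀ u, u ∉ τ.2.2.1 → F u = 0) →
      (∀ u' ∈ τ.2.2.1, ∑ σ, (if (τ.2.1 σ)⁻¹ (mu τ u') ∈ τ.1 σ then
        (A σ).mulVec (F ((τ.2.1 σ)⁻¹ (mu τ u'))) else 0) = 0) → F = 0 := by
  classical
  let E := AlgebraicClosure K
  have : Infinite E := IsAlgClosed.instInfinite
  obtain ⟨AE, hAE⟩ := exists_good_all E S N
  let L := IntermediateField.adjoin K (Set.range
    (fun q : S × Equiv.Perm (Fin N) × Equiv.Perm (Fin N) => AE q.1 q.2.1 q.2.2))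
  have hLfin : FiniteDimensional K L := by
    apply IntermediateField.finiteDimensional_adjoin
    intro x _
    exact (Algebra.IsAlgebraic.isAlgebraic x).isIntegral
  have hmemL : ∀ σ h g, AE σ h g ∈ L := fun σ h g =>
    IntermediateField.subset_adjoin K _ ⟨(σ, h, g), rfl⟩
  let AL : S → Matrix (Equiv.Perm (Fin N)) (Equiv.Perm (Fin N)) L :=
    fun σ => Matrix.of fun h g => ⟨AE σ h g, hmemL σ h g⟩
  let V := Equiv.Perm (Fin N) → L
  let e : V ≃ₗ[K] (Fin (Module.finrank K V) → K) := (Module.finBasis K V).equivFun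
  let TL : S → V →ₗ[K] V := fun σ => ((AL σ).mulVecLin).restrictScalars K
  let ψ : V →ₗ[K] (Equiv.Perm (Fin N) → E) :=
    { toFun := fun x h => ((x h : L) : E)
      map_add' := fun x y => rfl
      map_smul' := fun c x => rfl }
  have hψ : ∀ σ x, ψ (TL σ x) = (AE σ).mulVec (ψ x) := by
    intro σ x
    ext h
    show (((AL σ).mulVec x h : L) : E) = _
    rw [Matrix.mulVec, Matrix.mulVec, dotProduct, dotProduct]
    push_cast
    rfl
  have he : ∀ σ y, e.symm ((LinearMap.toMatrix' (e.toLinearMap ∘ₗ TL σ ∘ₗ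
      e.symm.toLinearMap)).mulVec y) = TL σ (e.symm y) := by
    intro σ y
    rw [LinearMap.toMatrix'_mulVec]
    simp
  refine ⟨Module.finrank K V, fun σ => LinearMap.toMatrix' (e.toLinearMap ∘ₗ TL σ ∘ₗ
    e.symm.toLinearMap), Module.finrank_pos, ?_⟩
  intro τ hτ F hF heq
  have hkey := inj_of_det (hAE τ hτ) (fun u => ψ (e.symm (F u))) (by
    intro u hu
    rw [hF u hu, map_zero, map_zero]) (by
    intro u' hu'
    have h1 := congrArg (fun x => ψ (e.symm x)) (heq u' hu')
    simp only [map_sum, map_zero, apply_ite e.symm, apply_ite ψ, he, hψ] at h1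
    exact h1)
  ext u i
  have h1 : e.symm (F u) = 0 := by
    ext h
    exact congrFun (congrFun hkey u) h
  have h2 : F u = 0 := by
    have := congrArg e h1
    simpa using this
  rw [h2]; rfl

end MP331e4f
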