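import Pool.Agent.Lib_MP_331e4f_al.Alg

/-!
# The known implication: locally finite `p`-groups in characteristic `p`
-/

namespace MP331e4f

open MonoidAlgebra

section fin

variable (K : Type*) [Field K]

theorem aug_mapDomain {G H : Type*} [Group G] [Group H] (f : G →* H) (x : MonoidAlgebra K G) :
    aug K H (mapDomainRingHom K f x) = aug K G x := by
  induction x using MonoidAlgebra.induction_linear with
  | zero => simp
  | add x y hx hy => rw [map_add, map_add, map_add, hx, hy]
  | single a r =>
    have : mapDomainRingHom K f (single a r) = single (f a) r := by simp [mapDomainRingHom]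
    rw [this, aug_single, aug_single]

/-- elements of the kernel of the projection modulo a central cyclic subgroup -/
theorem exists_of_ker {H : Type*} [Group H] [Finite H] {z : H} (hz : z ∈ Subgroup.center H)
    [(Subgroup.zpowers z).Normal] (y : MonoidAlgebra K H)
    (hy : mapDomainRingHom K (QuotientGroup.mk' (Subgroup.zpowers z)) y = 0) :
    ∃ w, y = (of K H z - 1) * w := by
  classical
  set q := QuotientGroup.mk' (Subgroup.zpowers z) with hq
  have hsurj : Function.Surjective q := QuotientGroup.mk'_surjective _
  choose s hs using hsurj
  have key : ∀ y : MonoidAlgebra K H, ∃ w,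
      y - MonoidAlgebra.mapDomain s (mapDomainRingHom K q y) = (of K H z - 1) * w := by
    intro y
    induction y using MonoidAlgebra.induction_linear with
    | zero => exact ⟨0, by simp⟩
    | add x y hx hy =>
      obtain ⟨w1, h1⟩ := hx
      obtain ⟨w2, h2⟩ := hy
      refine ⟨w1 + w2, ?_⟩
      rw [map_add, MonoidAlgebra.mapDomain_add, mul_add, ← h1, ← h2]
      abel
    | single g a =>
      have e1 : mapDomainRingHom K q (single g a) = single (q g) a := by simp [mapDomainRingHom]
      rw [e1, MonoidAlgebra.mapDomain_single]
      have h1 : q (s (q g)) = q g := hs _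
      rw [hq, QuotientGroup.mk'_apply, QuotientGroup.mk'_apply, QuotientGroup.eq] at h1
      obtain ⟨n, hn⟩ := mem_powers_iff_mem_zpowers.2 h1
      have hn' : z ^ n = (s (q g))⁻¹ * g := hn
      have hg : g = z ^ n * s (q g) := by
        have h2 : Commute (z ^ n) (s (q g)) :=
          (Commute.pow_left (Subgroup.mem_center_iff.1 hz (s (q g))).symm n)
        rw [h2.eq, hn', mul_inv_cancel_left]
      refine ⟨(∑ i ∈ Finset.range n, (of K H z) ^ i) * single (s (q g)) a, ?_⟩
      rw [← mul_assoc, mul_geom_sum, sub_mul, one_mul, ← map_pow]
      congr 1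
      have : (of K H (z ^ n)) * single (s (q g)) a = single (z ^ n * s (q g)) a := by
        simp [of, single_mul_single]
      rw [this, ← hg]
  obtain ⟨w, hw⟩ := key y
  rw [hy] at hw
  exact ⟨w, by simpa using hw⟩

variable {K}

/-- augmentation zero elements are nilpotent for finite `p`-groups -/
theorem nilpotent_of_finite {p : ℕ} (hp : p.Prime) [CharP K p] (n : ℕ) :
    ∀ (H : Type*) [Group H] [Finite H], Nat.card H ≤ n → IsPGroup p H →
      ∀ x : MonoidAlgebra K H, aug K H x = 0 → IsNilpotent x := by
  induction n with
  | zero =>
    intro H _ _ hcard _ x _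
    have : 0 < Nat.card H := Nat.card_pos
    omega
  | succ n ih =>
    intro H _ _ hcard hH x hx
    rcases subsingleton_or_nontrivial H with hs | hs
    · have : x = 0 := by
        have h1 : x = single 1 (aug K H x) := by
          induction x using MonoidAlgebra.induction_linear with
          | zero => simp
          | add a b ha hb =>
            have key : ∀ y : MonoidAlgebra K H, y = single 1 (aug K H y) := by
              intro y
              induction y using MonoidAlgebra.induction_linear with
              | zero => simp
              | add a b ha hb =>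
                rw [map_add, single_add, ← ha, ← hb]
              | single g r => rw [aug_single, Subsingleton.elim g 1]
            exact key _
          | single g r => rw [aug_single, Subsingleton.elim g 1]
        rw [h1, hx, single_zero]
      rw [this]; exact IsNilpotent.zero
    · have : Fact p.Prime := ⟨hp⟩
      have hcn := hH.center_nontrivial
      obtain ⟨⟨z, hz⟩, hz1⟩ := _root_.exists_ne (1 : Subgroup.center H)
      have hz1' : z ≠ 1 := fun h => hz1 (Subtype.ext h)
      have hnormal : (Subgroup.zpowers z).Normal := by
        constructor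
        intro a ha g
        have hc : a ∈ Subgroup.center H := by
          have : Subgroup.zpowers z ≤ Subgroup.center H := by
            rw [Subgroup.zpowers_le]; exact hz
          exact this ha
        have : g * a * g⁻¹ = a := by
          rw [Subgroup.mem_center_iff.1 hc g]; group
        rwa [this]
      have hlt : Nat.card (H ⧸ Subgroup.zpowers z) ≤ n := by
        have h1 := Subgroup.card_eq_card_quotient_mul_card_subgroup (Subgroup.zpowers z)
        have h2 : 1 < Nat.card (Subgroup.zpowers z) := by
          rw [Nat.card_zpowers]
          have h3 : orderOf z ≠ 1 := by rwa [Ne, orderOf_eq_one_iff]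
          have h4 : 0 < orderOf z := orderOf_pos z
          omega
        have h5 : 0 < Nat.card (H ⧸ Subgroup.zpowers z) := Nat.card_pos
        nlinarith
      have hq : IsPGroup p (H ⧸ Subgroup.zpowers z) := hH.to_quotient _
      obtain ⟨m, hm⟩ := ih (H ⧸ Subgroup.zpowers z) hlt hq
        (mapDomainRingHom K (QuotientGroup.mk' (Subgroup.zpowers z)) x)
        (by rw [aug_mapDomain, hx])
      rw [← map_pow] at hm
      obtain ⟨w, hw⟩ := exists_of_ker K hz _ hm
      obtain ⟨k, hk⟩ := hH z
      refine ⟨m * p ^ k, ?_⟩
      have hcomm : Commute (of K H z - 1) w :=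
        ((of_commute (fun m' => (Subgroup.mem_center_iff.1 hz m').symm) w).sub_left
          (Commute.one_left w))
      have hchar : CharP (MonoidAlgebra K H) p :=
        charP_of_injective_algebraMap (algebraMap K (MonoidAlgebra K H)).injective p
      have hzp : (of K H z - 1) ^ (p ^ k) = 0 := by
        rw [sub_pow_char_pow_of_commute _ _ (Commute.one_right _), ← map_pow, hk, map_one,
          one_pow, sub_self]
      rw [pow_mul, hw, hcomm.mul_pow, hzp, zero_mul]

/-- the augmentation ideal of a locally finite `p`-group in characteristic `p` is nil -/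
theorem nilpotent_of_locallyFinite {p : ℕ} (hp : p.Prime) [CharP K p] {G : Type*} [Group G]
    (hG : IsPGroup p G) (hloc : ∀ H : Subgroup G, H.FG → Finite H) (x : MonoidAlgebra K G)
    (hx : aug K G x = 0) : IsNilpotent x := by
  classical
  set P := Subgroup.closure (x.coeff.support : Set G) with hP
  have hfin : Finite P := hloc P ⟨x.coeff.support, rfl⟩
  have hxP : mapDomainRingHom K P.subtype
      (comapDomain (Subtype.val : P → G) Subtype.val_injective x) = x := by
    have := mapDomain_comapDomain (f := (Subtype.val : P → G)) (x := x) (by
      intro g hg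
      exact ⟨⟨g, Subgroup.subset_closure hg⟩, rfl⟩) Subtype.val_injective
    exact this
  have h1 : aug K P (comapDomain (Subtype.val : P → G) Subtype.val_injective x) = 0 := by
    rw [← aug_mapDomain K P.subtype, hxP, hx]
  have h2 := nilpotent_of_finite hp _ P le_rfl (hG.to_subgroup P) _ h1
  rw [← hxP]
  exact h2.map _

/-- the known implication -/
theorem jacobson_eq_of_locallyFinite {p : ℕ} (hp : p.Prime) [CharP K p] {G : Type*} [Group G]
    (hG : IsPGroup p G) (hloc : ∀ H : Subgroup G, H.FG → Finite H) :
    Ideal.jacobson (⊥ : Ideal (MonoidAlgebra K G)) =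
      Ideal.span (Set.range (fun g : G => of K G g - 1)) := by
  rw [Ideal.jacobson_bot]
  apply le_antisymm
  · intro x hx
    apply mem_span_of_aug
    by_contra hne
    obtain ⟨z, hz⟩ := mem_rad_iff.1 hx (single 1 (-(aug K G x)⁻¹))
    have := congrArg (aug K G) hz
    rw [map_add, map_mul, map_mul, aug_single, map_one] at this
    have h2 : aug K G z * -(aug K G x)⁻¹ * aug K G x = -aug K G z := by
      field_simp
    rw [h2, neg_add_cancel] at this
    exact zero_ne_one this
  · rw [Ideal.span_le]
    rintro _ ⟨g, rfl⟩
    show (of K G g - 1 : MonoidAlgebra K G) ∈ Ring.jacobson (MonoidAlgebra K G)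
    rw [mem_rad_iff]
    intro y
    have h0 : aug K G (y * (of K G g - 1)) = 0 := by
      rw [map_mul, map_sub, aug_of, map_one, sub_self, mul_zero]
    have h1 := nilpotent_of_locallyFinite hp hG hloc _ h0
    obtain ⟨u, hu⟩ := h1.isUnit_one_add
    refine ⟨↑u⁻¹, ?_⟩
    have h2 : (↑u⁻¹ : MonoidAlgebra K G) * (1 + y * (of K G g - 1)) = 1 := by
      rw [← hu]; exact u.inv_mul
    rw [mul_add, mul_one] at h2
    rw [mul_assoc, add_comm]
    exact h2

end fin

end MP331e4f
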