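import Pool.Agent.Lib_MP_331e4f_al.Alg

/-!
# Consequences of Nakayama's lemma: homomorphisms killing a subgroup
-/

namespace MP331e4f

open MonoidAlgebra

variable {K : Type*} [Field K] {P : Type*} [Group P]

/-- the left ideal generated by all `h - 1`, `h` in a set -/
noncomputable def om (K : Type*) [Field K] {P : Type*} [Group P] (S : Set P) :
    Ideal (MonoidAlgebra K P) :=
  Ideal.span ((fun g : P => of K P g - 1) '' S)

theorem om_subset {S : Set P} {g : P} (hg : g ∈ S) : of K P g - 1 ∈ om K S :=
  Ideal.subset_span ⟨g, hg, rfl⟩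

theorem om_mono {S T : Set P} (h : S ⊆ T) : om K S ≤ om K T :=
  Ideal.span_mono (Set.image_mono h)

theorem of_mem_om_closure {S : Set P} {g : P} (hg : g ∈ Subgroup.closure S) :
    of K P g - 1 ∈ om K S := by
  induction hg using Subgroup.closure_induction with
  | mem x hx => exact om_subset hx
  | one => rw [map_one, sub_self]; exact zero_mem _
  | mul x y _ _ hx hy =>
    have : (of K P (x * y) - 1 : MonoidAlgebra K P) =
        of K P x * (of K P y - 1) + (of K P x - 1) := by
      rw [map_mul]; noncomm_ring
    rw [this]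
    exact add_mem (Ideal.mul_mem_left _ _ hy) hx
  | inv x _ hx =>
    have : (of K P x⁻¹ - 1 : MonoidAlgebra K P) =
        -(of K P x⁻¹ * (of K P x - 1)) := by
      rw [mul_sub, ← map_mul, inv_mul_cancel, map_one, mul_one]; abel
    rw [this]
    exact neg_mem (Ideal.mul_mem_left _ _ hx)

theorem om_closure (S : Set P) : om K ((Subgroup.closure S : Subgroup P) : Set P) = om K S := by
  apply le_antisymm
  · rw [om, Ideal.span_le]
    rintro _ ⟨g, hg, rfl⟩
    exact of_mem_om_closure hg
  · exact om_mono Subgroup.subset_closure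

theorem om_fg (h : Group.FG P) : (om K (Set.univ : Set P)).FG := by
  obtain ⟨S, hS, hfin⟩ := Group.fg_iff.1 h
  have h1 : om K (Set.univ : Set P) = om K S := by
    rw [← om_closure S, hS]; rfl
  rw [h1]
  exact ⟨(hfin.image (fun g : P => (of K P g - 1 : MonoidAlgebra K P))).toFinset,
    by rw [Set.Finite.coe_toFinset]; rfl⟩

theorem not_mem_om {H : Subgroup P} {g : P} (hg : g ∉ H) :
    (of K P g - 1 : MonoidAlgebra K P) ∉ om K (H : Set P) := by
  intro hmem
  have key : ∀ x ∈ om K (H : Set P), ∀ y : MonoidAlgebra K P,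
      aug K H (comapDomain (Subtype.val : H → P) Subtype.val_injective (y * x)) = 0 := by
    intro x hx
    induction hx using Submodule.span_induction with
    | mem x hx =>
      intro y
      obtain ⟨h, hh, rfl⟩ := hx
      have e : (of K P h - 1 : MonoidAlgebra K P) =
          mapDomainRingHom K H.subtype (of K H ⟨h, hh⟩ - 1) := by
        rw [map_sub, map_one]
        simp [mapDomainRingHom, of]
      show aug K H (comapDomain _ _ (y * (of K P h - 1))) = 0
      rw [e, comap_mul, map_mul, map_sub, aug_of]
      simp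
    | zero => simp
    | add x y _ _ hx hy =>
      intro z
      rw [mul_add, comapDomain_add, map_add, hx, hy, add_zero]
    | smul a x hx' hx =>
      intro y
      rw [smul_eq_mul, ← mul_assoc]
      exact hx _
  have h1 := key _ hmem 1
  rw [one_mul] at h1
  have e1 : comapDomain (Subtype.val : H → P) Subtype.val_injective
      (of K P g - 1 : MonoidAlgebra K P) = - 1 := by
    have e2 : (of K P g - 1 : MonoidAlgebra K P) = single g 1 + single ((1 : H) : P) (-1) := by
      rw [single_neg, ← sub_eq_add_neg]; rfl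
    rw [e2, comapDomain_add, comapDomain_single_of_not_mem_range, comapDomain_single_map,
      single_neg, zero_add]
    · rfl
    · rintro ⟨c, hc⟩
      exact hg (hc ▸ c.2)
  rw [e1, map_neg, map_one] at h1
  exact one_ne_zero (neg_eq_zero.1 h1)

/-- the submodule `I_H + omega^2` -/
noncomputable def WW (K : Type*) [Field K] {P : Type*} [Group P] (H : Subgroup P) :
    Ideal (MonoidAlgebra K P) :=
  om K (H : Set P) ⊔ om K (Set.univ : Set P) * om K (Set.univ : Set P)

theorem AugRad.om_le (h : AugRad K P) (S : Set P) : om K S ≤ Ring.jacobson (MonoidAlgebra K P) := by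
  rw [om, Ideal.span_le]
  rintro _ ⟨g, _, rfl⟩
  exact h g

theorem AugRad.not_le_WW (h : AugRad K P) (hfg : Group.FG P) {H : Subgroup P} (hH : H ≠ ⊤) :
    ¬ om K (Set.univ : Set P) ≤ WW K H := by
  intro hle
  set I := om K (H : Set P) with hI
  set ω := om K (Set.univ : Set P) with hω
  have hfgω : ω.FG := om_fg hfg
  have hfgN : (Submodule.map I.mkQ ω).FG := Submodule.FG.map _ hfgω
  have hN : Submodule.map I.mkQ ω ≤
      Ring.jacobson (MonoidAlgebra K P) • Submodule.map I.mkQ ω := by
    have h1 : Submodule.map I.mkQ ω ≤ Submodule.map I.mkQ (WW K H) := Submodule.map_mono hle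
    refine h1.trans ?_
    rw [WW, Submodule.map_sup]
    apply sup_le
    · rw [← hI]
      rw [Submodule.mkQ_map_self]; exact bot_le
    · rw [← Submodule.map_smul'']
      apply Submodule.map_mono
      exact Submodule.smul_mono_left (h.om_le _)
  have hbot := hfgN.eq_bot_of_le_jacobson_smul hN
  have hle2 : ω ≤ I := by
    intro x hx
    have h2 : I.mkQ x ∈ Submodule.map I.mkQ ω := Submodule.mem_map_of_mem hx
    rw [hbot, Submodule.mem_bot, Submodule.mkQ_apply, Submodule.Quotient.mk_eq_zero] at h2
    exact h2
  apply hH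
  rw [Subgroup.eq_top_iff']
  intro g
  by_contra hg
  exact not_mem_om hg (hle2 (om_subset (Set.mem_univ g)))

/-- the homomorphism `g ↦ g - 1` to the quotient -/
noncomputable def homWW (K : Type*) [Field K] {P : Type*} [Group P] (H : Subgroup P) :
    P →* Multiplicative (MonoidAlgebra K P ⧸ WW K H) where
  toFun g := Multiplicative.ofAdd (Submodule.Quotient.mk (of K P g - 1))
  map_one' := by
    rw [map_one, sub_self]; rfl
  map_mul' x y := by
    rw [← ofAdd_add]
    congr 1
    rw [← Submodule.Quotient.mk_add, Submodule.Quotient.eq]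
    have : (of K P (x * y) - 1 - (of K P x - 1 + (of K P y - 1)) : MonoidAlgebra K P) =
        (of K P x - 1) * (of K P y - 1) := by
      rw [map_mul]; noncomm_ring
    rw [this]
    exact Ideal.mem_sup_right (Ideal.mul_mem_mul (om_subset (Set.mem_univ _))
      (om_subset (Set.mem_univ _)))

theorem homWW_eq_one_iff {H : Subgroup P} {g : P} :
    homWW K H g = 1 ↔ (of K P g - 1 : MonoidAlgebra K P) ∈ WW K H := by
  show Multiplicative.ofAdd (Submodule.Quotient.mk (of K P g - 1)) = 1 ↔ _
  rw [ofAdd_eq_one, Submodule.Quotient.mk_eq_zero]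

theorem homWW_eq_one {H : Subgroup P} {g : P} (hg : g ∈ H) : homWW K H g = 1 :=
  homWW_eq_one_iff.2 (Ideal.mem_sup_left (om_subset hg))

theorem AugRad.exists_ne (h : AugRad K P) (hfg : Group.FG P) {H : Subgroup P} (hH : H ≠ ⊤) :
    ∃ g, homWW K H g ≠ 1 := by
  by_contra hcon
  push Not at hcon
  apply h.not_le_WW hfg hH
  rw [om, Ideal.span_le]
  rintro _ ⟨g, _, rfl⟩
  exact homWW_eq_one_iff.1 (hcon g)

/-- multiplication by a natural number in the quotient -/
theorem homWW_pow {H : Subgroup P} {g : P} (n : ℕ) (hn : homWW K H g ^ n = 1)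
    (hg : homWW K H g ≠ 1) : (n : K) = 0 := by
  by_contra hne
  apply hg
  have h1 : n • (Multiplicative.toAdd (homWW K H g)) = 0 := by
    rw [← toAdd_pow, hn]; rfl
  rw [← Nat.cast_smul_eq_nsmul K] at h1
  have h2 := (smul_eq_zero.1 h1).resolve_left hne
  exact h2

end MP331e4f
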