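import Pool.Agent.Lib_MP_331e4f_al.Nak

/-!
# The characteristic is a prime `p`, the group is a `p`-group, and proper subgroups of finitely
generated subgroups are contained in normal subgroups of index `p`
-/

namespace MP331e4f

open MonoidAlgebra

variable {K : Type*} [Field K] {G : Type*} [Group G]

theorem AugRad.cast_eq_zero (h : AugRad K G) {x : G} {q : ℕ}
    (hx : x ∉ Subgroup.zpowers (x ^ q)) : (q : K) = 0 := by
  set P := Subgroup.zpowers x with hP
  have hPfg : Group.FG P := by
    rw [Group.fg_iff_subgroup_fg]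
    exact ⟨{x}, by simp [hP, Subgroup.zpowers_eq_closure]⟩
  set x' : P := ⟨x, Subgroup.mem_zpowers x⟩ with hx'
  set H : Subgroup P := (Subgroup.zpowers (x ^ q)).subgroupOf P with hH
  have hxH : x' ∉ H := by
    rw [hH, Subgroup.mem_subgroupOf]; exact hx
  have hHt : H ≠ ⊤ := by
    intro ht; apply hxH; rw [ht]; exact Subgroup.mem_top _
  obtain ⟨g, hg⟩ := (h.restrict P).exists_ne hPfg hHt
  have hfx : homWW K H x' ≠ 1 := by
    intro h1
    apply hg
    obtain ⟨k, hk⟩ := Subgroup.mem_zpowers_iff.1 g.2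
    have : g = x' ^ k := by
      apply Subtype.ext
      rw [← hk]; simp [hx']
    rw [this, map_zpow, h1, one_zpow]
  have hfq : homWW K H x' ^ q = 1 := by
    rw [← map_pow]
    apply homWW_eq_one
    rw [hH, Subgroup.mem_subgroupOf]
    exact Subgroup.mem_zpowers _
  exact homWW_pow q hfq hfx

theorem AugRad.isOfFinOrder (h : AugRad K G) (x : G) : IsOfFinOrder x := by
  by_contra hx
  have key : ∀ q : ℕ, 2 ≤ q → (q : K) = 0 := by
    intro q hq
    apply h.cast_eq_zero (x := x)
    intro hmem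
    obtain ⟨k, hk⟩ := Subgroup.mem_zpowers_iff.1 hmem
    have h1 : x ^ ((q : ℤ) * k) = x ^ (1 : ℤ) := by
      rw [zpow_mul, zpow_natCast, hk, zpow_one]
    have h2 := injective_zpow_iff_not_isOfFinOrder.2 hx h1
    have h3 : (q : ℤ) ∣ 1 := ⟨k, h2.symm⟩
    have h4 : q ∣ 1 := by exact_mod_cast h3
    have := Nat.le_of_dvd one_pos h4
    omega
  have h2 := key 2 le_rfl
  have h3 := key 3 (by norm_num)
  have : (1 : K) = 0 := by
    have : (1 : K) = (3 : ℕ) - (2 : ℕ) := by norm_num
    rw [this, h2, h3, sub_zero]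
  exact one_ne_zero this

theorem AugRad.cast_prime (h : AugRad K G) {x : G} {q : ℕ} (hq : q.Prime)
    (hdvd : q ∣ orderOf x) : (q : K) = 0 := by
  apply h.cast_eq_zero (x := x)
  intro hmem
  have hpos : 0 < orderOf x := (h.isOfFinOrder x).orderOf_pos
  have h1 : orderOf x ∣ orderOf (x ^ q) := orderOf_dvd_of_mem_zpowers hmem
  have h2 : orderOf (x ^ q) = orderOf x / q := orderOf_pow_of_dvd hq.ne_zero hdvd
  rw [h2] at h1
  have h3 : 0 < orderOf x / q := Nat.div_pos (Nat.le_of_dvd hpos hdvd) hq.pos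
  have h4 := Nat.le_of_dvd h3 h1
  have h5 : orderOf x / q < orderOf x := Nat.div_lt_self hpos hq.one_lt
  omega

theorem AugRad.exists_prime (h : AugRad K G) [Nontrivial G] :
    ∃ p : ℕ, p.Prime ∧ CharP K p ∧ IsPGroup p G := by
  obtain ⟨x0, hx0⟩ := _root_.exists_ne (1 : G)
  have ho : orderOf x0 ≠ 1 := by rwa [Ne, orderOf_eq_one_iff]
  obtain ⟨p, hp, hdvd⟩ := Nat.exists_prime_and_dvd ho
  have hpK := h.cast_prime hp hdvd
  have hchar : CharP K p := by
    have h1 : ringChar K ∣ p := (ringChar.spec K p).1 hpK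
    rcases (Nat.dvd_prime hp).1 h1 with h2 | h2
    · exfalso
      have := (ringChar.spec K 1).2 (by rw [h2])
      simp at this
    · rw [← h2]; exact ringChar.charP K
  refine ⟨p, hp, hchar, ?_⟩
  intro x
  have hpos : 0 < orderOf x := (h.isOfFinOrder x).orderOf_pos
  have h1 : orderOf x = p ^ (orderOf x).primeFactorsList.length := by
    apply Nat.eq_prime_pow_of_unique_prime_dvd hpos.ne'
    intro q hq hqd
    have := h.cast_prime hq hqd
    have h3 : p ∣ q := (CharP.cast_eq_zero_iff K p q).1 this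
    exact ((Nat.prime_dvd_prime_iff_eq hp hq).1 h3).symm
  exact ⟨_, by rw [← h1]; exact pow_orderOf_eq_one x⟩

theorem exists_addHom' {F : Type*} [Field F] {A : Type*} [AddCommGroup A] [Module F A]
    {v : A} (hv : v ≠ 0) : ∃ φ : A →+ F, φ v ≠ 0 := by
  obtain ⟨φ, hφ⟩ := Module.Projective.exists_dual_ne_zero F hv
  exact ⟨φ.toAddMonoidHom, hφ⟩

theorem exists_addHom {p : ℕ} (hp : p.Prime) {A : Type*} [AddCommGroup A]
    (hA : ∀ x : A, p • x = 0) {v : A} (hv : v ≠ 0) : ∃ φ : A →+ ZMod p, φ v ≠ 0 := by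
  have : Fact p.Prime := ⟨hp⟩
  exact @exists_addHom' (ZMod p) _ A _ (AddCommGroup.zmodModule hA) v hv

/-- every proper subgroup of a finitely generated group with `AugRad` is contained in a normal
subgroup of index `p` -/
theorem AugRad.exists_normal (h : AugRad K G) {p : ℕ} (hp : p.Prime) [CharP K p]
    (hfg : Group.FG G) {H : Subgroup G} (hH : H ≠ ⊤) :
    ∃ N : Subgroup G, H ≤ N ∧ N.Normal ∧ N.index = p := by
  obtain ⟨g, hg⟩ := h.exists_ne hfg hH
  obtain ⟨φ, hφ⟩ := exists_addHom hp (A := MonoidAlgebra K G ⧸ WW K H) (by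
    intro x
    rw [← Nat.cast_smul_eq_nsmul K, CharP.cast_eq_zero, zero_smul])
    (v := Multiplicative.toAdd (homWW K H g)) (fun h0 => hg h0)
  set f : G →* Multiplicative (ZMod p) :=
    (AddMonoidHom.toMultiplicative φ).comp (homWW K H) with hf
  have hfg' : f g ≠ 1 := by
    intro h1
    exact hφ h1
  refine ⟨f.ker, ?_, inferInstance, ?_⟩
  · intro x hx
    rw [MonoidHom.mem_ker, hf, MonoidHom.comp_apply, homWW_eq_one hx, map_one]
  · rw [Subgroup.index_ker]
    have hcard : Nat.card (Multiplicative (ZMod p)) = p := by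
      rw [Nat.card_congr Multiplicative.toAdd]; exact Nat.card_zmod p
    have : Fact (Nat.card (Multiplicative (ZMod p))).Prime := ⟨by rw [hcard]; exact hp⟩
    rcases Subgroup.eq_bot_or_eq_top_of_prime_card f.range with h1 | h1
    · exfalso
      apply hfg'
      have : f g ∈ f.range := ⟨g, rfl⟩
      rw [h1] at this
      exact this
    · rw [h1, Subgroup.card_top, hcard]

theorem AugRad.exists_normal' (h : AugRad K G) {p : ℕ} (hp : p.Prime) [CharP K p]
    {P : Subgroup G} (hfg : P.FG) {H : Subgroup G} (hH : H < P) :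
    ∃ N : Subgroup G, H ≤ N ∧ N ≤ P ∧ (N.subgroupOf P).Normal ∧ N.relIndex P = p := by
  have hfg' : Group.FG P := (Group.fg_iff_subgroup_fg P).2 hfg
  have hne : H.subgroupOf P ≠ ⊤ := by
    intro ht
    rw [Subgroup.subgroupOf_eq_top] at ht
    exact absurd ht (not_le_of_gt hH)
  obtain ⟨N, h1, h2, h3⟩ := (h.restrict P).exists_normal hp hfg' hne
  have e : (N.map P.subtype).subgroupOf P = N := by
    rw [Subgroup.subgroupOf, Subgroup.comap_map_eq_self_of_injective P.subtype_injective]
  refine ⟨N.map P.subtype, ?_, Subgroup.map_subtype_le N, ?_, ?_⟩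
  · have : (H.subgroupOf P).map P.subtype ≤ N.map P.subtype := Subgroup.map_mono h1
    rwa [Subgroup.subgroupOf_map_subtype, inf_eq_left.2 hH.le] at this
  · rw [e]; exact h2
  · rw [Subgroup.relIndex, e]; exact h3

/-- subgroups of infinite index lie in subgroups of index `p ^ n` for all `n` -/
theorem AugRad.exists_index_pow (h : AugRad K G) {p : ℕ} (hp : p.Prime) [CharP K p]
    {P : Subgroup G} (hfg : P.FG) {H : Subgroup G} (hH : H ≤ P) (hind : H.relIndex P = 0)
    (n : ℕ) : ∃ L : Subgroup G, H ≤ L ∧ L ≤ P ∧ L.relIndex P = p ^ n := by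
  induction n with
  | zero => exact ⟨P, hH, le_rfl, by simp⟩
  | succ n ih =>
    obtain ⟨L, hL1, hL2, hL3⟩ := ih
    have hLne : L.relIndex P ≠ 0 := by rw [hL3]; exact pow_ne_zero _ hp.ne_zero
    have hLfg : L.FG := by
      have hfg' : Group.FG P := (Group.fg_iff_subgroup_fg P).2 hfg
      have h1 : (L.subgroupOf P).FiniteIndex := ⟨hLne⟩
      have h2 : Group.FG (L.subgroupOf P) := Subgroup.fg_of_index_ne_zero _
      have h3 : ((L.subgroupOf P).map P.subtype).FG := by
        rw [← Group.fg_iff_subgroup_fg]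
        exact Group.fg_of_surjective (f := (P.subtype.subgroupMap (L.subgroupOf P)))
          (MonoidHom.subgroupMap_surjective _ _)
      rwa [Subgroup.subgroupOf_map_subtype, inf_eq_left.2 hL2] at h3
    have hlt : H < L := by
      refine lt_of_le_of_ne hL1 ?_
      rintro rfl
      exact hLne hind
    obtain ⟨N, h1, h2, _, h4⟩ := h.exists_normal' hp hLfg hlt
    refine ⟨N, h1, h2.trans hL2, ?_⟩
    rw [← Subgroup.relIndex_mul_relIndex N L P h2 hL2, h4, hL3, pow_succ, mul_comm]

end MP331e4f
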