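import Pool.Agent.Lib_MP_331e4f_al.Gen

/-!
# Uniqueness across a piece of the integers
-/

namespace MP331e4f

open Matrix

variable {K : Type*} [Field K] {S : Type*} [Fintype S] [DecidableEq S] {N d : ℕ}

/-- the injectivity property of generic matrices -/
def Generic (N : ℕ) (A : S → Matrix (Fin d) (Fin d) K) : Prop :=
  ∀ τ : Ty S N, GoodTy τ →
      ∀ F : Fin N → Fin d → K, (∀ u, u ∉ τ.2.2.1 → F u = 0) →
      (∀ u' ∈ τ.2.2.1, ∑ σ, (if (τ.2.1 σ)⁻¹ (mu τ u') ∈ τ.1 σ then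
        (A σ).mulVec (F ((τ.2.1 σ)⁻¹ (mu τ u'))) else 0) = 0) → F = 0

omit [DecidableEq S] in
theorem transfer {A : S → Matrix (Fin d) (Fin d) K} (hA : Generic N A)
    (t : S → Equiv.Perm ℤ) (a : ℤ) (R C : Finset ℤ) (hR : ∀ x ∈ R, a ≤ x ∧ x < a + N)
    (hC : ∀ x ∈ C, a ≤ x ∧ x < a + N) (g : ℤ → ℤ) (hg : Set.InjOn g (C : Set ℤ))
    (hgR : ∀ v, v ∈ R ↔ ∃ u ∈ C, g u = v) (hgt : ∀ u ∈ C, ∃ σ, t σ u = g u)
    (F : ℤ → Fin d → K)
    (h1 : ∀ v ∈ R, ∑ σ, (A σ).mulVec (F ((t σ)⁻¹ v)) = 0)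
    (h2 : ∀ v ∈ R, ∀ σ, (t σ)⁻¹ v ∉ C → F ((t σ)⁻¹ v) = 0) :
    ∀ u ∈ C, F u = 0 := by
  classical
  intro u0 hu0
  obtain ⟨σ0, _⟩ := hgt u0 hu0
  set ι : Fin N → ℤ := fun i => a + (i : ℕ) with hι
  have hιinj : Function.Injective ι := by
    intro i j hij
    simp only [hι] at hij
    apply Fin.ext
    omega
  have hιsurj : ∀ x, a ≤ x → x < a + N → ∃ i, ι i = x := by
    intro x h3 h4
    refine ⟨⟨(x - a).toNat, by omega⟩, ?_⟩
    simp only [hι]
    omega
  -- the partial maps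
  have hf : ∀ σ : S, ∃ m : Equiv.Perm (Fin N), ∀ i, ι i ∈ C → t σ (ι i) ∈ R →
      ι (m i) = t σ (ι i) := by
    intro σ
    set s : Set (Fin N) := {i | ι i ∈ C ∧ t σ (ι i) ∈ R} with hs
    have hch : ∀ i : Fin N, ∃ j : Fin N, (ι i ∈ C ∧ t σ (ι i) ∈ R) → ι j = t σ (ι i) := by
      intro i
      by_cases h : ι i ∈ C ∧ t σ (ι i) ∈ R
      · obtain ⟨j, hj⟩ := hιsurj _ (hR _ h.2).1 (hR _ h.2).2
        exact ⟨j, fun _ => hj⟩
      · exact ⟨i, fun h' => absurd h' h⟩
    choose f hf using hch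
    obtain ⟨e, he⟩ := Set.MapsTo.exists_equiv_extend_of_card_eq (t := (Finset.univ : Finset (Fin N)))
      (α := Fin N) (by simp) (s := s) (f := f) (fun _ _ => by simp) (by
        intro i hi j hj hij
        have h3 := hf i hi
        have h4 := hf j hj
        rw [hij, h4] at h3
        exact (hιinj ((t σ).injective h3)).symm)
    refine ⟨e.trans (Equiv.subtypeUnivEquiv (by simp)), ?_⟩
    intro i hi hi'
    have h5 : (e.trans (Equiv.subtypeUnivEquiv (by simp)) : Equiv.Perm (Fin N)) i = f i :=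
      he i ⟨hi, hi'⟩
    rw [h5]
    exact hf i ⟨hi, hi'⟩
  choose m hm using hf
  have hs : ∀ i : Fin N, ∃ σ, ι i ∈ C → t σ (ι i) = g (ι i) := by
    intro i
    by_cases h : ι i ∈ C
    · obtain ⟨σ, hσ⟩ := hgt _ h
      exact ⟨σ, fun _ => hσ⟩
    · exact ⟨σ0, fun h' => absurd h' h⟩
  choose s hs using hs
  set τ : Ty S N := (fun σ => Finset.univ.filter (fun i => ι i ∈ C ∧ t σ (ι i) ∈ R), m,
    Finset.univ.filter (fun i => ι i ∈ C), s) with hτ
  have hgmem : ∀ u ∈ C, g u ∈ R := fun u hu => (hgR _).2 ⟨u, hu, rfl⟩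
  have hmu : ∀ i, ι i ∈ C → ι (mu τ i) = g (ι i) := by
    intro i hi
    show ι (m (s i) i) = g (ι i)
    rw [hm (s i) i hi (by rw [hs i hi]; exact hgmem _ hi), hs i hi]
  have hgood : GoodTy τ := by
    constructor
    · intro i hi
      have hi' : ι i ∈ C := by simpa [hτ] using hi
      simp only [hτ, Finset.mem_filter, Finset.mem_univ, true_and]
      exact ⟨hi', by rw [hs i hi']; exact hgmem _ hi'⟩
    · intro i hi j hj hij
      have hi' : ι i ∈ C := by simpa [hτ] using hi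
      have hj' : ι j ∈ C := by simpa [hτ] using hj
      have h3 := hmu i hi'
      rw [hij, hmu j hj'] at h3
      exact hιinj (hg hi' hj' h3.symm)
  have hkey := hA τ hgood (fun i => if ι i ∈ C then F (ι i) else 0) (by
    intro i hi
    have hi' : ι i ∉ C := by simpa [hτ] using hi
    rw [if_neg hi']) (by
    intro i hi
    have hi' : ι i ∈ C := by simpa [hτ] using hi
    have hv : g (ι i) ∈ R := hgmem _ hi'
    refine Eq.trans ?_ (h1 _ hv)
    apply Finset.sum_congr rfl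
    intro σ _
    set w := (τ.2.1 σ)⁻¹ (mu τ i) with hw
    have hw' : m σ w = mu τ i := by rw [hw]; exact Equiv.apply_symm_apply _ _
    by_cases hwD : w ∈ τ.1 σ
    · have hwD' : ι w ∈ C ∧ t σ (ι w) ∈ R := by simpa [hτ] using hwD
      rw [if_pos hwD]
      have h3 : ι w = (t σ)⁻¹ (g (ι i)) := by
        rw [← hmu i hi', ← hw', hm σ w hwD'.1 hwD'.2]
        exact (Equiv.symm_apply_apply _ _).symm
      show (A σ).mulVec (if ι w ∈ C then F (ι w) else 0) = _
      rw [if_pos hwD'.1, h3]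
    · rw [if_neg hwD]
      have h3 : (t σ)⁻¹ (g (ι i)) ∉ C := by
        intro hz
        obtain ⟨w0, hw0⟩ := hιsurj _ (hC _ hz).1 (hC _ hz).2
        have h4 : t σ (ι w0) = g (ι i) := by
          rw [hw0]; exact Equiv.apply_symm_apply _ _
        have h5 : ι w0 ∈ C := by rw [hw0]; exact hz
        have h6 : ι (m σ w0) = ι (mu τ i) := by
          rw [hm σ w0 h5 (by rw [h4]; exact hv), h4, hmu i hi']
        have h7 : w0 = w := by
          rw [hw, ← hιinj h6]; exact (Equiv.symm_apply_apply _ _).symm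
        apply hwD
        rw [← h7]
        simp only [hτ, Finset.mem_filter, Finset.mem_univ, true_and]
        exact ⟨h5, by rw [h4]; exact hv⟩
      rw [h2 _ hv σ h3, Matrix.mulVec_zero])
  obtain ⟨i0, hi0⟩ := hιsurj _ (hC _ hu0).1 (hC _ hu0).2
  have := congrFun hkey i0
  simp only [hi0, hu0, if_true, Pi.zero_apply] at this
  exact this

end MP331e4f
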