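import Pool.Agent.Lib_MP_331e4f_al.Combin
import Pool.Agent.Lib_MP_331e4f_al.Alg

/-!
# Actions by permutations of bounded displacement
-/

namespace MP331e4f

open Matrix MonoidAlgebra

variable {K : Type*} [Field K] {P : Type*} [Group P]

/-- push forward of an element of the group algebra to the orbit of `x1` -/
noncomputable def Th (φ : P →* Equiv.Perm ℤ) (x1 : ℤ) (y : MonoidAlgebra K P) : ℤ →₀ K :=
  Finsupp.mapDomain (fun g => φ g x1) y.coeff

theorem Th_add (φ : P →* Equiv.Perm ℤ) (x1 : ℤ) (y z : MonoidAlgebra K P) :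
    Th φ x1 (y + z) = Th φ x1 y + Th φ x1 z := by
  simp [Th, Finsupp.mapDomain_add]

theorem Th_zero (φ : P →* Equiv.Perm ℤ) (x1 : ℤ) :
    Th φ x1 (0 : MonoidAlgebra K P) = 0 := by
  simp [Th]

/-- `Th` as an additive homomorphism -/
noncomputable def ThHom (φ : P →* Equiv.Perm ℤ) (x1 : ℤ) : MonoidAlgebra K P →+ (ℤ →₀ K) where
  toFun := Th φ x1
  map_zero' := Th_zero φ x1
  map_add' := Th_add φ x1

theorem Th_sum (φ : P →* Equiv.Perm ℤ) (x1 : ℤ) {ι : Type*} (s : Finset ι)
    (f : ι → MonoidAlgebra K P) : Th φ x1 (∑ i ∈ s, f i) = ∑ i ∈ s, Th φ x1 (f i) :=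
  map_sum (ThHom φ x1) f s

theorem Th_single (φ : P →* Equiv.Perm ℤ) (x1 : ℤ) (g : P) (a : K) :
    Th φ x1 (single g a) = Finsupp.single (φ g x1) a := by
  simp [Th, Finsupp.mapDomain_single]

theorem Th_single_mul (φ : P →* Equiv.Perm ℤ) (x1 : ℤ) (g : P) (a : K)
    (y : MonoidAlgebra K P) (v : ℤ) :
    Th φ x1 (single g a * y) v = a * Th φ x1 y ((φ g)⁻¹ v) := by
  classical
  induction y using MonoidAlgebra.induction_linear with
  | zero => simp [Th_zero]
  | add f h hf hh =>
    rw [mul_add, Th_add, Th_add, Finsupp.add_apply, Finsupp.add_apply, hf, hh, mul_add]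
  | single b s =>
    rw [single_mul_single, Th_single, Th_single, Finsupp.single_apply, Finsupp.single_apply]
    have hiff : (φ (g * b) x1 = v) ↔ (φ b x1 = (φ g)⁻¹ v) := by
      rw [map_mul, Equiv.Perm.mul_apply, Equiv.Perm.eq_inv_iff_eq]
    rw [if_congr hiff rfl rfl]
    split_ifs <;> simp

theorem Th_support (φ : P →* Equiv.Perm ℤ) (x1 : ℤ) (y : MonoidAlgebra K P) {x : ℤ}
    (hx : Th φ x1 y x ≠ 0) : ∃ g ∈ y.coeff.support, φ g x1 = x := by
  classical
  have h1 : x ∈ (Th φ x1 y).support := Finsupp.mem_support_iff.2 hx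
  have h2 := Finsupp.mapDomain_support h1
  obtain ⟨g, hg, hgx⟩ := Finset.mem_image.1 h2
  exact ⟨g, hg, hgx⟩

theorem AugRad.bdd_orbits (h : AugRad K P) (hfg : Group.FG P) (φ : P →* Equiv.Perm ℤ)
    (hφ : ∀ g, ∃ r : ℤ, ∀ x : ℤ, |φ g x - x| ≤ r) :
    ∃ L : ℕ, ∀ g x, |φ g x - x| ≤ L := by
  classical
  obtain ⟨S0, hS0, hfin⟩ := Group.fg_iff.1 hfg
  set T : Finset P := insert 1 (hfin.toFinset ∪ hfin.toFinset.image (fun x => x⁻¹)) with hT
  have hT1 : (1 : P) ∈ T := by simp [hT]
  have hTinv : ∀ x ∈ T, x⁻¹ ∈ T := by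
    intro x hx
    simp only [hT, Finset.mem_insert, Finset.mem_union, Finset.mem_image,
      Set.Finite.mem_toFinset] at hx ⊢
    rcases hx with rfl | hx | ⟨y, hy, rfl⟩
    · left; simp
    · right; right; exact ⟨x, hx, rfl⟩
    · right; left; simpa using hy
  have hTS : S0 ⊆ (T : Set P) := by
    intro x hx
    simp [hT, hx]
  have hclT : Subgroup.closure (T : Set P) = ⊤ := by
    rw [eq_top_iff, ← hS0]
    exact Subgroup.closure_mono hTS
  let t : T → Equiv.Perm ℤ := fun σ => φ σ
  have hone : ∃ σ, t σ = 1 := ⟨⟨1, hT1⟩, by simp [t]⟩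
  have hsymm : ∀ σ : T, ∃ σ' : T, t σ' = (t σ)⁻¹ := by
    intro σ
    exact ⟨⟨(σ : P)⁻¹, hTinv _ σ.2⟩, by simp [t]⟩
  choose rr hrr using hφ
  have hbound : ∀ s : Finset P, ∃ r : ℕ, ∀ g ∈ s, ∀ x, |φ g x - x| ≤ r := by
    intro s
    induction s using Finset.induction_on with
    | empty => exact ⟨0, by simp⟩
    | insert g s _ ih =>
      obtain ⟨r, hr⟩ := ih
      refine ⟨r + (rr g).toNat, ?_⟩
      intro g' hg' x
      rcases Finset.mem_insert.1 hg' with rfl | hg'
      · have h1 := hrr g' x
        have h2 := Int.self_le_toNat (rr g')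
        push_cast
        omega
      · have h1 := hr g' hg' x
        push_cast
        omega
  obtain ⟨r, hr⟩ := hbound T
  have hex : ∃ k : ℕ, ∃ L0 : ℕ, ∀ a : ℤ, HasCut t k a (a + L0) :=
    ⟨r, r, fun a => hasCut_of_bdd (t := t) (fun (σ : T) x => hr σ σ.2 x) a⟩
  set c := Nat.find hex with hc
  obtain ⟨L0, hL0⟩ := Nat.find_spec hex
  rcases Nat.eq_zero_or_pos c with hc0 | hcpos
  · -- bounded orbits
    rw [← hc, hc0] at hL0
    have key : ∀ g x, φ g x ≤ x + 1 + L0 := by
      intro g x
      obtain ⟨U, C, hsep, hcard⟩ := hL0 (x + 1)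
      have hC : C = ∅ := Finset.card_eq_zero.1 (by omega)
      have hinv : ∀ g ∈ Subgroup.closure (T : Set P), ∀ y, y ∈ U ↔ φ g y ∈ U := by
        intro g hg
        induction hg using Subgroup.closure_induction with
        | mem g hg =>
          intro y
          constructor
          · intro hy
            rcases hsep.edge ⟨g, hg⟩ y hy with h1 | h1
            · exact h1
            · rw [hC] at h1; simp at h1
          · intro hy
            rcases hsep.edge ⟨g⁻¹, hTinv g hg⟩ _ hy with h1 | h1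
            · have : t ⟨g⁻¹, hTinv g hg⟩ (φ g y) = y := by
                simp [t]
              rwa [this] at h1
            · rw [hC] at h1; simp at h1
        | one => intro y; simp
        | mul g g' _ _ h1 h2 =>
          intro y
          rw [map_mul, Equiv.Perm.mul_apply, ← h1, ← h2]
        | inv g _ h1 =>
          intro y
          rw [h1 (φ g⁻¹ y)]
          have : φ g (φ g⁻¹ y) = y := by simp
          rw [this]
      have hxU : x ∈ U := hsep.lo x (by omega)
      have h1 := (hinv g (by rw [hclT]; exact Subgroup.mem_top g) x).1 hxU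
      exact hsep.hi _ h1
    refine ⟨L0 + 1, fun g x => ?_⟩
    have h1 := key g x
    have h2 := key g⁻¹ (φ g x)
    have h3 : φ g⁻¹ (φ g x) = x := by simp
    rw [h3] at h2
    rw [abs_le]
    push_cast
    constructor <;> omega
  · -- contradiction
    exfalso
    have hno : ∀ L : ℕ, ∃ a : ℤ, ¬ HasCut t (c - 1) a (a + L) := by
      intro L
      by_contra hcon
      push Not at hcon
      have := Nat.find_min' hex ⟨L, hcon⟩
      omega
    obtain ⟨d, A, hd, hA⟩ := exists_generic K T (2 * (L0 + 1))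
    set X : Matrix (Fin d) (Fin d) (MonoidAlgebra K P) :=
      Matrix.of fun i k => ∑ σ : T, MonoidAlgebra.single (σ : P) (A σ i k) with hX
    have haug : (aug K P).toRingHom.mapMatrix X = ∑ σ, A σ := by
      ext i k
      simp only [hX, RingHom.mapMatrix_apply, Matrix.map_apply, Matrix.of_apply, map_sum,
        Matrix.sum_apply]
      apply Finset.sum_congr rfl
      intro σ _
      exact aug_single _ _
    have hunit : IsUnit ((aug K P).toRingHom.mapMatrix X) := by
      rw [haug, ← Matrix.mulVec_injective_iff_isUnit]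
      intro v w hvw
      obtain ⟨σ1, hσ1⟩ := hone
      let i0 : Fin (2 * (L0 + 1)) := ⟨0, by omega⟩
      let τ : Ty T (2 * (L0 + 1)) := (fun _ => {i0}, fun _ => 1, {i0}, fun _ => σ1)
      have hτ : GoodTy τ := by
        constructor
        · intro u hu; exact hu
        · intro u hu u' hu' _
          have h1 : u = i0 := by simpa [τ] using hu
          have h2 : u' = i0 := by simpa [τ] using hu'
          rw [h1, h2]
      have hkey := hA τ hτ (fun u => if u = i0 then v - w else 0) (by
        intro u hu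
        have h1 : u ≠ i0 := by simpa [τ] using hu
        rw [if_neg h1]) (by
        intro u hu
        have h1 : u = i0 := by simpa [τ] using hu
        subst h1
        have h2 : mu τ i0 = i0 := rfl
        have h3 : ∀ σ : T, (if (τ.2.1 σ)⁻¹ (mu τ i0) ∈ τ.1 σ then
            (A σ).mulVec (if (τ.2.1 σ)⁻¹ (mu τ i0) = i0 then v - w else 0) else 0) =
            (A σ).mulVec (v - w) := by
          intro σ
          have h4 : (τ.2.1 σ)⁻¹ (mu τ i0) = i0 := rfl
          rw [h4, if_pos rfl, if_pos (by simp [τ])]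
        rw [Finset.sum_congr rfl (fun σ _ => h3 σ), ← Matrix.sum_mulVec, Matrix.mulVec_sub]
        exact sub_eq_zero.2 hvw)
      have := congrFun hkey i0
      simp only [if_true, Pi.zero_apply] at this
      exact sub_eq_zero.1 this
    obtain ⟨Y, hY⟩ := h.exists_inv X hunit
    obtain ⟨ρ, hρ⟩ := hbound (Finset.univ.biUnion (fun p : Fin d × Fin d =>
      (Y p.1 p.2).coeff.support))
    obtain ⟨x1, hx1⟩ := combin hone hsymm hcpos hL0 hno hA ρ
    let i0 : Fin d := ⟨0, hd⟩
    set F : ℤ → Fin d → K := fun x i => Th φ x1 (Y i i0) x with hF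
    have hsum : ∀ v i, (∑ σ, (A σ).mulVec (F ((t σ)⁻¹ v))) i =
        Th φ x1 ((X * Y) i i0) v := by
      intro v i
      rw [Finset.sum_apply, Matrix.mul_apply, Th_sum, Finsupp.finsetSum_apply]
      simp only [Matrix.mulVec, dotProduct]
      rw [Finset.sum_comm]
      apply Finset.sum_congr rfl
      intro k _
      rw [hX, Matrix.of_apply, Finset.sum_mul, Th_sum, Finsupp.finsetSum_apply]
      apply Finset.sum_congr rfl
      intro σ _
      rw [Th_single_mul]
    have hone' : ∀ v i, Th φ x1 ((X * Y) i i0) v = if i = i0 ∧ v = x1 then 1 else 0 := by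
      intro v i
      rw [hY, Matrix.one_apply]
      by_cases hi : i = i0
      · rw [if_pos hi]
        have : (1 : MonoidAlgebra K P) = MonoidAlgebra.single 1 1 := rfl
        rw [this, Th_single, map_one, Equiv.Perm.one_apply, Finsupp.single_apply]
        by_cases hv : x1 = v
        · rw [if_pos hv, if_pos ⟨hi, hv.symm⟩]
        · rw [if_neg hv, if_neg (fun h => hv h.2.symm)]
      · rw [if_neg hi, if_neg (fun h => hi h.1), Th_zero]; rfl
    have hF0 := hx1 F (by
      intro x hx
      obtain ⟨i, hi⟩ := Function.ne_iff.1 hx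
      obtain ⟨g, hg, hgx⟩ := Th_support φ x1 (Y i i0) hi
      rw [← hgx]
      exact hρ g (Finset.mem_biUnion.2 ⟨(i, i0), Finset.mem_univ _, hg⟩) x1) (by
      intro v hv
      ext i
      rw [hsum, hone', if_neg (fun h => hv h.2)]; rfl)
    have h1 := hsum x1 i0
    rw [hone', if_pos ⟨rfl, rfl⟩, hF0] at h1
    simp at h1

/-- a finitely generated group of permutations of the integers with uniformly bounded displacement
is finite -/
theorem finite_range_of_bdd (hfg : Group.FG P) (φ : P →* Equiv.Perm ℤ) {L : ℕ}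
    (hL : ∀ g x, |φ g x - x| ≤ L) : (Set.range φ).Finite := by
  classical
  let _ : MulAction P ℤ := MulAction.compHom ℤ φ
  have hsmul : ∀ (g : P) (x : ℤ), g • x = φ g x := fun _ _ => rfl
  obtain ⟨S0, hS0, hfin⟩ := Group.fg_iff.1 hfg
  have hfinS : Finite S0 := hfin.to_subtype
  have hfinHom : Finite (P →* Equiv.Perm (Fin (2 * L + 1))) := by
    apply Finite.of_injective (β := S0 → Equiv.Perm (Fin (2 * L + 1))) (fun f s => f s)
    intro f g hfg'
    apply MonoidHom.eq_of_eqOn_dense hS0
    intro x hx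
    exact congrFun hfg' ⟨x, hx⟩
  have horb : ∀ x : ℤ, ∀ y : MulAction.orbit P x, x - L ≤ y ∧ (y : ℤ) ≤ x + L := by
    rintro x ⟨y, g, rfl⟩
    have := abs_le.1 (hL g x)
    show x - L ≤ φ g x ∧ φ g x ≤ x + L
    omega
  let e : ∀ x : ℤ, MulAction.orbit P x ↪ Fin (2 * L + 1) := fun x =>
    { toFun := fun y => ⟨((y : ℤ) - (x - L)).toNat, by
        have := horb x y
        omega⟩
      inj' := by
        intro y z hyz
        have h1 := horb x y
        have h2 := horb x z
        have h3 := congrArg Fin.val hyz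
        apply Subtype.ext
        simp only at h3
        omega }
  let ψ : ℤ → P →* Equiv.Perm (Fin (2 * L + 1)) := fun x =>
    (Equiv.Perm.viaEmbeddingHom (e x)).comp (MulAction.toPermHom P (MulAction.orbit P x))
  have hinj : ∀ g g' : P, (∀ x, ψ x g = ψ x g') → φ g = φ g' := by
    intro g g' h
    ext x
    have h1 := Equiv.Perm.viaEmbeddingHom_injective (e x) (h x)
    have h2 := congrArg (fun q : Equiv.Perm (MulAction.orbit P x) =>
      ((q ⟨x, MulAction.mem_orbit_self x⟩ : MulAction.orbit P x) : ℤ)) h1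
    exact h2
  have : Finite (Set.range φ) := by
    choose G hG using fun w : Set.range φ => w.2
    apply Finite.of_injective (β := (P →* Equiv.Perm (Fin (2 * L + 1))) →
      Equiv.Perm (Fin (2 * L + 1))) (fun w f => f (G w))
    intro w w' hw
    apply Subtype.ext
    rw [← hG w, ← hG w']
    exact hinj _ _ (fun x => congrFun hw (ψ x))
  exact Set.toFinite _

/-- finitely generated groups with `AugRad` have finite image in the group of permutations of
bounded displacement -/
theorem AugRad.finite_range (h : AugRad K P) (hfg : Group.FG P) (φ : P →* Equiv.Perm ℤ)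
    (hφ : ∀ g, ∃ r : ℤ, ∀ x : ℤ, |φ g x - x| ≤ r) : (Set.range φ).Finite := by
  obtain ⟨L, hL⟩ := h.bdd_orbits hfg φ hφ
  exact finite_range_of_bdd hfg φ hL

end MP331e4f
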